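import Mathlib
import Pool.Agent.Helper1.RG.Defs

/-!
# MP_c9c10f, row D1 of the project RG: one step of the counting

Two characters which agree up to `e_t` on `A_j = (2-i)^(-j) s⁻¹ ℤ[i]` and both have a good time `j`, or
have nearly the same value at the generator `x_j`, agree up to `e_t` on `A_{j+1}`.
-/

set_option autoImplicit false

open Complex
open scoped ComplexConjugate

namespace Pool.Agent.Helper55.RG

open Pool.Agent.Helper1.RG

/-! ### reduction modulo `2 - i` -/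

instance instF5 : Fact (Nat.Prime 5) := ⟨by norm_num⟩

/-- reduction modulo `2 - i` -/
noncomputable def red : GaussianInt →+* ZMod 5 := Zsqrtd.lift ⟨2, by decide⟩

theorem red_mk (a b : ℤ) : red ⟨a, b⟩ = a + b * 2 := by
  simp [red]

theorem dvd_of_red (w : GaussianInt) (h : red w = 0) : (⟨2, -1⟩ : GaussianInt) ∣ w := by
  obtain ⟨p, q⟩ := w
  rw [red_mk] at h
  have h5 : ((p + q * 2 : ℤ) : ZMod 5) = 0 := by push_cast; exact h
  rw [ZMod.intCast_zmod_eq_zero_iff_dvd] at h5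
  obtain ⟨m, hm⟩ := h5
  refine ⟨⟨2 * m - q, m⟩, ?_⟩
  push_cast at hm
  ext
  · simp
    linarith
  · simp
    try linarith

theorem toC_mk (a b : ℤ) : GaussianInt.toComplex ⟨a, b⟩ = a + b * I := by
  simp [GaussianInt.toComplex_def₂, Complex.ext_iff]

theorem ZI_iff (z : ℂ) : z ∈ ZI ↔ ∃ w : GaussianInt, z = GaussianInt.toComplex w := by
  constructor
  · rintro ⟨a, b, rfl⟩
    exact ⟨⟨a, b⟩, (toC_mk a b).symm⟩
  · rintro ⟨⟨a, b⟩, rfl⟩
    exact ⟨a, b, toC_mk a b⟩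

theorem toC_gb : GaussianInt.toComplex ⟨2, -1⟩ = gb := by
  rw [toC_mk]; unfold gb; push_cast; ring

theorem toC_ga : GaussianInt.toComplex ⟨2, 1⟩ = ga := by
  rw [toC_mk]; unfold ga; push_cast; ring

theorem ga_mul_gb : ga * gb = 5 := by
  unfold ga gb
  ring_nf
  rw [I_sq]
  norm_num

theorem ga_ne : ga ≠ 0 := by
  intro h
  have := ga_mul_gb
  rw [h] at this
  norm_num at this

theorem gb_ne : gb ≠ 0 := by
  intro h
  have := ga_mul_gb
  rw [h] at this
  norm_num at this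

theorem norm_kk : ‖kk‖ = 1 := by
  have h : ‖ga‖ = ‖gb‖ := by
    have : gb = conj ga := by
      unfold ga gb
      simp [Complex.ext_iff]
    rw [this, Complex.norm_conj]
  unfold kk
  rw [norm_div, h, div_self (norm_ne_zero_iff.mpr gb_ne)]

/-! ### the exponential -/

theorem e_add (t x y : ℂ) : e t (x + y) = e t x * e t y := by
  unfold e
  rw [← Circle.exp_add]
  congr 1
  rw [mul_add, Complex.add_re]

theorem e_zero (t : ℂ) : e t 0 = 1 := by
  unfold e
  simp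

theorem e_sub_one (t x : ℂ) : ‖((e t x : Circle) : ℂ) - 1‖ ≤ ‖t‖ * ‖x‖ := by
  unfold e
  rw [Circle.coe_exp, mul_comm (_ : ℂ) I]
  refine (Real.norm_exp_I_mul_ofReal_sub_one_le).trans ?_
  rw [Real.norm_eq_abs]
  refine (Complex.abs_re_le_norm _).trans ?_
  rw [norm_mul, Complex.norm_conj]

/-! ### fifth roots of unity near one -/

theorem root5 (u : Circle) (h5 : u ^ 5 = 1) (h1 : ‖(u : ℂ) - 1‖ ≤ 1) : u = 1 := by
  by_contra hne
  have hz : (u : ℂ) ^ 5 = 1 := by
    rw [← Circle.coe_pow, h5, Circle.coe_one]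
  have hne' : (u : ℂ) - 1 ≠ 0 := by
    intro h
    apply hne
    apply Circle.ext
    rw [Circle.coe_one]
    exact sub_eq_zero.mp h
  have h4 : (u : ℂ) ^ 4 + (u : ℂ) ^ 3 + (u : ℂ) ^ 2 + (u : ℂ) + 1 = 0 := by
    have : ((u : ℂ) - 1) * ((u : ℂ) ^ 4 + (u : ℂ) ^ 3 + (u : ℂ) ^ 2 + (u : ℂ) + 1) = 0 := by
      ring_nf
      rw [hz]
      ring
    exact (mul_eq_zero.mp this).resolve_left hne'
  have hn : (u : ℂ) * conj (u : ℂ) = 1 := by
    rw [Complex.mul_conj, Complex.normSq_eq_norm_sq]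
    simp
  set x := (u : ℂ).re with hx
  set y := (u : ℂ).im with hy
  have hxy : x ^ 2 + y ^ 2 = 1 := by
    have := congrArg Complex.re hn
    simp at this
    nlinarith [this]
  have hq : (u : ℂ) ^ 2 + (u : ℂ) + 1 + conj (u : ℂ) + (conj (u : ℂ)) ^ 2 = 0 := by
    have e : (u : ℂ) ^ 2 + (u : ℂ) + 1 + conj (u : ℂ) + (conj (u : ℂ)) ^ 2 =
        (conj (u : ℂ)) ^ 2 * ((u : ℂ) ^ 4 + (u : ℂ) ^ 3 + (u : ℂ) ^ 2 + (u : ℂ) + 1) +
        (1 - (u : ℂ) * conj (u : ℂ)) * ((u : ℂ) ^ 2 * (1 + (u : ℂ) * conj (u : ℂ)) +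
          (u : ℂ) * (1 + (u : ℂ) * conj (u : ℂ)) + (1 + (u : ℂ) * conj (u : ℂ)) + conj (u : ℂ)) := by
      ring
    rw [e, h4, hn]
    ring
  have hre := congrArg Complex.re hq
  simp only [Complex.add_re, Complex.one_re, Complex.conj_re, Complex.zero_re, sq, Complex.mul_re,
    Complex.conj_im] at hre
  have h6 : 4 * x ^ 2 + 2 * x - 1 = 0 := by
    nlinarith [hre, hxy]
  have hns : ‖(u : ℂ) - 1‖ ^ 2 = 2 - 2 * x := by
    rw [← Complex.normSq_eq_norm_sq, Complex.normSq_apply]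
    simp only [Complex.sub_re, Complex.one_re, Complex.sub_im, Complex.one_im]
    nlinarith [hxy]
  have h7 : ‖(u : ℂ) - 1‖ ^ 2 ≤ 1 := by
    nlinarith [norm_nonneg ((u : ℂ) - 1)]
  nlinarith

/-! ### the step -/

theorem norm_circle_sub (a b c : Circle) :
    ‖((a * b⁻¹ * c⁻¹ : Circle) : ℂ) - 1‖ = ‖(a : ℂ) - (c : ℂ) * (b : ℂ)‖ := by
  have h : (a : ℂ) - (c : ℂ) * (b : ℂ) = ((c : ℂ) * (b : ℂ)) * (((a * b⁻¹ * c⁻¹ : Circle) : ℂ) - 1) := by
    rw [mul_sub, mul_one]
    congr 1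
    rw [← Circle.coe_mul, ← Circle.coe_mul]
    congr 1
    rw [mul_assoc a, ← mul_inv_rev, mul_left_comm, mul_inv_cancel, mul_one]
  rw [h, norm_mul, norm_mul, Circle.norm_coe, Circle.norm_coe]
  ring

/-- the common denominator of a finite subset of the local ring -/
theorem exists_den (F : Finset ℂ) (hF : ∀ x ∈ F, x ∈ RR) :
    ∃ s : GaussianInt, red s ≠ 0 ∧ ∀ x ∈ F, ∃ a : GaussianInt,
      x * GaussianInt.toComplex s = GaussianInt.toComplex a := by
  classical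
  induction F using Finset.induction_on with
  | empty => exact ⟨1, by rw [map_one]; exact one_ne_zero, by simp⟩
  | insert x F hx ih =>
    obtain ⟨s, hs, h⟩ := ih (fun y hy => hF y (Finset.mem_insert_of_mem hy))
    obtain ⟨a, r, hr, hxr⟩ := hF x (Finset.mem_insert_self x F)
    refine ⟨r * s, ?_, ?_⟩
    · rw [map_mul]
      refine mul_ne_zero (fun h0 => hr (dvd_of_red r h0)) hs
    · intro y hy
      rcases Finset.mem_insert.mp hy with rfl | hy
      · exact ⟨a * s, by rw [map_mul, map_mul, ← mul_assoc, hxr]⟩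
      · obtain ⟨b, hb⟩ := h y hy
        exact ⟨r * b, by rw [map_mul, map_mul, ← hb]; ring⟩

/-- the class of an element modulo `2 - i` as a multiple of a unit -/
theorem exists_class (w g : GaussianInt) (hg : red g ≠ 0) :
    ∃ (n : ℕ) (v : GaussianInt), w = n * g + ⟨2, -1⟩ * v := by
  have h : red (w - ((red w / red g).val : ℕ) * g) = 0 := by
    rw [map_sub, map_mul, map_natCast, ZMod.natCast_val, ZMod.cast_id', id, div_mul_cancel₀ _ hg,
      sub_self]
  obtain ⟨v, hv⟩ := dvd_of_red _ h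
  exact ⟨(red w / red g).val, v, by rw [← hv]; ring⟩

theorem st_D1 : ST_D1 := by
  intro F c hF
  obtain ⟨s₀, hs₀, hden⟩ := exists_den F hF
  have hred : red (⟨2, 1⟩ * s₀) ≠ 0 := by
    rw [map_mul]
    refine mul_ne_zero ?_ hs₀
    rw [red_mk]
    decide
  have hs : GaussianInt.toComplex (⟨2, 1⟩ * s₀) ≠ 0 := by
    intro h
    rw [GaussianInt.toComplex_eq_zero] at h
    rw [h, map_zero] at hred
    exact hred rfl
  have hs₀c : GaussianInt.toComplex s₀ ≠ 0 := by
    intro h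
    rw [GaussianInt.toComplex_eq_zero] at h
    rw [h, map_zero] at hs₀
    exact hs₀ rfl
  set S : ℝ := ∑ x ∈ F, ‖c x‖ * ‖x‖ with hS
  have hS0 : 0 ≤ S := Finset.sum_nonneg fun x _ => by positivity
  refine ⟨GaussianInt.toComplex (⟨2, 1⟩ * s₀), (ZI_iff _).mpr ⟨_, rfl⟩, hs, 1 / (10 * (1 + S)),
    by positivity, ?_, ?_⟩
  · rw [div_le_one (by positivity)]
    linarith
  intro χ χ' t j ht hA hor
  have hη1 : ‖t‖ ≤ 1 / 10 := by
    refine ht.trans ?_
    rw [div_le_div_iff₀ (by positivity) (by norm_num)]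
    linarith
  have hηS : ‖t‖ * S ≤ 1 / 10 := by
    have h1 : ‖t‖ * (10 * (1 + S)) ≤ 1 := by
      rwa [le_div_iff₀ (by positivity)] at ht
    nlinarith [norm_nonneg t]
  -- the elements of `A_j`
  have hAw : ∀ w : GaussianInt, χ (GaussianInt.toComplex w / (gb ^ j *
      GaussianInt.toComplex (⟨2, 1⟩ * s₀))) =
      e t (GaussianInt.toComplex w / (gb ^ j * GaussianInt.toComplex (⟨2, 1⟩ * s₀))) *
        χ' (GaussianInt.toComplex w / (gb ^ j * GaussianInt.toComplex (⟨2, 1⟩ * s₀))) :=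
    fun w => hA _ ((ZI_iff _).mpr ⟨w, rfl⟩)
  set sC : ℂ := GaussianInt.toComplex (⟨2, 1⟩ * s₀) with hsC
  have hsC' : sC = ga * GaussianInt.toComplex s₀ := by rw [hsC, map_mul, toC_ga]
  have hk : ∀ n : ℕ, kk ^ n = ga ^ n / gb ^ n := fun n => by unfold kk; rw [div_pow]
  have hgb : ∀ n : ℕ, gb ^ n ≠ 0 := fun n => pow_ne_zero n gb_ne
  have hga : ∀ n : ℕ, ga ^ n ≠ 0 := fun n => pow_ne_zero n ga_ne
  have hxj : xj j = GaussianInt.toComplex (⟨2, 1⟩ ^ j * s₀) / (gb ^ (j + 1) * sC) := by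
    unfold xj
    rw [hk, map_mul, map_pow, toC_ga, hsC', ← ga_mul_gb, pow_succ]
    have h1 := gb_ne
    have h2 := ga_ne
    field_simp
  have hkx : ∀ x a, x * GaussianInt.toComplex s₀ = GaussianInt.toComplex a → kk ^ j * x =
      GaussianInt.toComplex (⟨2, 1⟩ ^ (j + 1) * a) / (gb ^ j * sC) := by
    intro x a hxa
    rw [hk, map_mul, map_pow, toC_ga, hsC', ← hxa, pow_succ ga]
    have h1 := gb_ne
    have h2 := ga_ne
    field_simp
  have h5xj : 5 * xj j = GaussianInt.toComplex (⟨2, 1⟩ ^ (j + 1) * s₀) / (gb ^ j * sC) := by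
    rw [← hkx 1 s₀ (one_mul _)]
    unfold xj
    ring
  -- the quotient character
  set ψ : ℂ → Circle := fun z => χ z * (χ' z)⁻¹ * (e t z)⁻¹ with hψ
  have hψ1 : ∀ z, ψ z = 1 ↔ χ z = e t z * χ' z := by
    intro z
    rw [hψ]
    show χ z * (χ' z)⁻¹ * (e t z)⁻¹ = 1 ↔ _
    rw [mul_inv_eq_one, mul_inv_eq_iff_eq_mul]
  have hψadd : ∀ x y, ψ (x + y) = ψ x * ψ y := by
    intro x y
    show χ (x + y) * (χ' (x + y))⁻¹ * (e t (x + y))⁻¹ =
      (χ x * (χ' x)⁻¹ * (e t x)⁻¹) * (χ y * (χ' y)⁻¹ * (e t y)⁻¹)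
    rw [AddChar.map_add_eq_mul, AddChar.map_add_eq_mul, e_add, mul_inv, mul_inv]
    simp only [mul_comm, mul_left_comm, mul_assoc]
  have hψ0 : ψ 0 = 1 := by
    have := hψadd 0 0
    rw [add_zero] at this
    exact left_eq_mul.mp this
  have hψn : ∀ (n : ℕ) x, ψ (n * x) = ψ x ^ n := by
    intro n x
    induction n with
    | zero => simp [hψ0]
    | succ n ih => rw [Nat.cast_succ, add_mul, one_mul, hψadd, ih, pow_succ]
  have hx5 : ψ (xj j) ^ 5 = 1 := by
    rw [← hψn]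
    push_cast
    rw [h5xj]
    exact (hψ1 _).mpr (hAw _)
  -- the values at `x_j` are close
  have hnx : ‖xj j‖ = 1 / 5 := by
    unfold xj
    rw [norm_div, norm_pow, norm_kk, one_pow]
    norm_num
  have hclose : ‖ev (xj j) χ - ev (xj j) χ'‖ ≤ 1 / 2 := by
    rcases hor with ⟨hb, hb'⟩ | h
    · unfold bad at hb hb'
      rw [Set.mem_ofPred_eq, not_lt] at hb hb'
      have e1 : ∀ (ρ : Om) (x : ℂ), ev x (ρ.mulShift (kk ^ j)) = ev (kk ^ j * x) ρ := by
        intro ρ x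
        unfold ev
        rw [AddChar.mulShift_apply]
      simp only [e1] at hb hb'
      have e2 : kk ^ j * (1 / 5) = xj j := by unfold xj; ring
      rw [e2] at hb hb'
      have hd : ‖(∑ x ∈ F, c x * ev (kk ^ j * x) χ) - ∑ x ∈ F, c x * ev (kk ^ j * x) χ'‖ ≤
          1 / 10 := by
        rw [← Finset.sum_sub_distrib]
        refine (norm_sum_le _ _).trans (le_trans ?_ hηS)
        rw [hS, Finset.mul_sum]
        refine Finset.sum_le_sum fun x hx => ?_
        obtain ⟨a, ha⟩ := hden x hx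
        have h3 : χ (kk ^ j * x) = e t (kk ^ j * x) * χ' (kk ^ j * x) := by
          rw [hkx x a ha]
          exact hAw _
        have h4 : c x * ev (kk ^ j * x) χ - c x * ev (kk ^ j * x) χ' =
            c x * (((e t (kk ^ j * x) : Circle) : ℂ) - 1) * ev (kk ^ j * x) χ' := by
          unfold ev
          rw [h3, Circle.coe_mul]
          ring
        rw [h4, norm_mul, norm_mul]
        have h5 : ‖ev (kk ^ j * x) χ'‖ = 1 := by unfold ev; exact Circle.norm_coe _
        have h6 := e_sub_one t (kk ^ j * x)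
        rw [norm_mul, norm_pow, norm_kk, one_pow, one_mul] at h6
        rw [h5, mul_one]
        calc ‖c x‖ * ‖((e t (kk ^ j * x) : Circle) : ℂ) - 1‖ ≤ ‖c x‖ * (‖t‖ * ‖x‖) :=
              mul_le_mul_of_nonneg_left h6 (norm_nonneg _)
          _ = ‖t‖ * (‖c x‖ * ‖x‖) := by ring
      have h7 : ev (xj j) χ - ev (xj j) χ' =
          (ev (xj j) χ - ∑ x ∈ F, c x * ev (kk ^ j * x) χ) +
          ((∑ x ∈ F, c x * ev (kk ^ j * x) χ) - ∑ x ∈ F, c x * ev (kk ^ j * x) χ') -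
          (ev (xj j) χ' - ∑ x ∈ F, c x * ev (kk ^ j * x) χ') := by ring
      rw [h7]
      refine (norm_sub_le _ _).trans ?_
      have h8 := norm_add_le (ev (xj j) χ - ∑ x ∈ F, c x * ev (kk ^ j * x) χ)
        ((∑ x ∈ F, c x * ev (kk ^ j * x) χ) - ∑ x ∈ F, c x * ev (kk ^ j * x) χ')
      linarith
    · exact h
  have hone : ψ (xj j) = 1 := by
    refine root5 _ hx5 ?_
    show ‖((χ (xj j) * (χ' (xj j))⁻¹ * (e t (xj j))⁻¹ : Circle) : ℂ) - 1‖ ≤ 1
    rw [norm_circle_sub]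
    have h1 : ((χ (xj j) : Circle) : ℂ) - ((e t (xj j) : Circle) : ℂ) * ((χ' (xj j) : Circle) : ℂ) =
        (ev (xj j) χ - ev (xj j) χ') -
          (((e t (xj j) : Circle) : ℂ) - 1) * ((χ' (xj j) : Circle) : ℂ) := by
      unfold ev
      ring
    rw [h1]
    refine (norm_sub_le _ _).trans ?_
    rw [norm_mul, Circle.norm_coe, mul_one]
    have h2 := e_sub_one t (xj j)
    rw [hnx] at h2
    linarith
  -- all elements of `A_{j+1}`
  intro z hz
  obtain ⟨w, rfl⟩ := (ZI_iff z).mp hz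
  have hg : red (⟨2, 1⟩ ^ j * s₀) ≠ 0 := by
    rw [map_mul, map_pow]
    refine mul_ne_zero (pow_ne_zero _ ?_) hs₀
    rw [red_mk]
    decide
  obtain ⟨n, v, hw⟩ := exists_class w _ hg
  have hz' : GaussianInt.toComplex w / (gb ^ (j + 1) * sC) =
      n * xj j + GaussianInt.toComplex v / (gb ^ j * sC) := by
    rw [hw, hxj]
    simp only [map_add, map_mul, map_natCast, toC_gb]
    rw [pow_succ gb]
    have h1 := gb_ne
    have h2 := hs
    field_simp
  rw [hz', ← hψ1, hψadd, hψn, hone, one_pow, one_mul]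
  exact (hψ1 _).mpr (hAw v)

end Pool.Agent.Helper55.RG
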