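import Pool.Agent.Helper67.RG.EStmts

namespace Pool.Agent.Helper55.RG

open Polynomial Pool.Agent.Helper67.RG

/-- Eigenvectors with distinct characters are independent. -/
theorem li_eigen {K V ι : Type*} [Field K] [AddCommGroup V] [Module K V]
    (Γ : Set (V →ₗ[K] V)) (z : ι → V) (hz : ∀ i, z i ≠ 0) (χ : ι → (V →ₗ[K] V) → K)
    (he : ∀ i, ∀ σ ∈ Γ, σ (z i) = χ i σ • z i)
    (hd : ∀ i j, i ≠ j → ∃ σ ∈ Γ, χ i σ ≠ χ j σ) : LinearIndependent K z := by
  classical
  rw [linearIndependent_iff']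
  intro s
  induction s using Finset.induction_on with
  | empty => intro g _ i hi; exact absurd hi (Finset.notMem_empty i)
  | insert j s hj ih =>
    intro g hg
    have hs : ∀ i ∈ s, g i = 0 := by
      intro i hi
      have hij : i ≠ j := fun h => hj (h ▸ hi)
      obtain ⟨σ, hσ, hne⟩ := hd i j hij
      have h1 : ∑ k ∈ s, ((χ k σ - χ j σ) * g k) • z k = 0 := by
        have h2 : σ (∑ k ∈ insert j s, g k • z k) - χ j σ • (∑ k ∈ insert j s, g k • z k) = 0 := by
          rw [hg, map_zero, smul_zero, sub_zero]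
        rw [map_sum, Finset.smul_sum, ← Finset.sum_sub_distrib, Finset.sum_insert hj] at h2
        have h3 : ∀ k, σ (g k • z k) - χ j σ • (g k • z k) = ((χ k σ - χ j σ) * g k) • z k := by
          intro k
          rw [map_smul, he k σ hσ, smul_smul, smul_smul, ← sub_smul]
          congr 1
          ring
        rw [h3 j, sub_self, zero_mul, zero_smul, zero_add] at h2
        rw [← h2]
        exact Finset.sum_congr rfl fun k _ => (h3 k).symm
      have h4 := ih _ h1 i hi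
      exact (mul_eq_zero.1 h4).resolve_left (sub_ne_zero.2 hne)
    intro i hi
    rcases Finset.mem_insert.1 hi with rfl | hi'
    · rw [Finset.sum_insert hj, Finset.sum_eq_zero fun k hk => by rw [hs k hk, zero_smul],
        add_zero] at hg
      exact (smul_eq_zero.1 hg).resolve_right (hz i)
    · exact hs i hi'

section

variable {ν : ℕ} {D : Pell ν} (T : Tower D)

theorem rr_sq (s : Finset (Fin 12)) :
    T.rr s ^ 2 = aeval tau (∏ i ∈ s, (X - C (D.lam i)) : ℂ[X]) := by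
  rw [Tower.rr, ← Finset.prod_pow, map_prod]
  refine Finset.prod_congr rfl fun i _ => ?_
  rw [T.hr i, map_sub, aeval_X, aeval_C]

theorem aeval_tau (P : ℂ[X]) :
    aeval tau P = algebraMap (RatFunc ℂ) Om (algebraMap ℂ[X] (RatFunc ℂ) P) := by
  have h := aeval_algebraMap_apply Om (RatFunc.X : RatFunc ℂ) P
  rw [show tau = algebraMap (RatFunc ℂ) Om RatFunc.X from rfl, h]
  congr 1
  rw [RatFunc.aeval_X_left_eq_algebraMap]

theorem aeval_tau_inj {P : ℂ[X]} (h : aeval tau P = 0) : P = 0 := by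
  rw [aeval_tau] at h
  have h1 := (map_eq_zero (algebraMap (RatFunc ℂ) Om)).1 h
  exact (map_eq_zero_iff _ (RatFunc.algebraMap_injective ℂ)).1 h1

theorem rr_ne (s : Finset (Fin 12)) : T.rr s ≠ 0 := by
  intro h
  have h1 := rr_sq T s
  rw [h, zero_pow (by norm_num)] at h1
  have h2 := aeval_tau_inj h1.symm
  exact (monic_prod_of_monic _ _ fun i _ => monic_X_sub_C _).ne_zero h2

theorem y_eq : T.y = T.rr I1 * T.rr I2 := by
  unfold Tower.y Tower.rr
  rw [← Finset.prod_union]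
  · congr 1
  · decide

theorem prod_sq_free {s : Finset (Fin 12)} : Squarefree (∏ i ∈ s, (X - C (D.lam i)) : ℂ[X]) := by
  apply Separable.squarefree
  rw [separable_prod_X_sub_C_iff']
  exact fun x _ y _ h => D.inj h

/-- an element of `ℂ(τ)` whose square is a polynomial is a polynomial -/
theorem poly_of_sq {c : RatFunc ℂ} {P : ℂ[X]} (h : c ^ 2 = algebraMap ℂ[X] (RatFunc ℂ) P) :
    ∃ Q : ℂ[X], c = algebraMap ℂ[X] (RatFunc ℂ) Q := by
  have h1 : IsIntegral ℂ[X] c := by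
    refine IsIntegral.of_pow (n := 2) (by norm_num) ?_
    rw [h]
    exact isIntegral_algebraMap
  obtain ⟨Q, hQ⟩ := IsIntegrallyClosed.isIntegral_iff.1 h1
  exact ⟨Q, hQ.symm⟩

theorem rr_notMem {s : Finset (Fin 12)} (hs : s.Nonempty) (c : RatFunc ℂ) :
    T.rr s ≠ algebraMap (RatFunc ℂ) Om c := by
  intro h
  have h1 := rr_sq T s
  rw [h, ← map_pow, aeval_tau] at h1
  have h2 := (algebraMap (RatFunc ℂ) Om).injective h1
  obtain ⟨Q, rfl⟩ := poly_of_sq h2
  rw [← map_pow] at h2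
  have h3 : Q ^ 2 = ∏ i ∈ s, (X - C (D.lam i)) := RatFunc.algebraMap_injective ℂ h2
  have h4 : IsUnit Q := (prod_sq_free (D := D) (s := s)) Q (by rw [← h3, sq])
  have h5 : IsUnit (∏ i ∈ s, (X - C (D.lam i)) : ℂ[X]) := by rw [← h3]; exact h4.pow 2
  have h6 := natDegree_eq_zero_of_isUnit h5
  rw [natDegree_prod_of_monic _ _ (fun i _ => monic_X_sub_C _)] at h6
  simp at h6
  exact hs.ne_empty h6

theorem sig_r (σ : Om ≃ₐ[RatFunc ℂ] Om) (i : Fin 12) : σ (T.r i) = T.r i ∨ σ (T.r i) = -T.r i := by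
  have h1 : σ (T.r i) ^ 2 = T.r i ^ 2 := by
    rw [← map_pow, T.hr i]
    have : tau - algebraMap ℂ Om (D.lam i) =
        algebraMap (RatFunc ℂ) Om (RatFunc.X - RatFunc.C (D.lam i)) := tau_sub_mem _
    rw [this, AlgEquiv.commutes]
  exact sq_eq_sq_iff_eq_or_eq_neg.1 h1

theorem sig_rr (σ : Om ≃ₐ[RatFunc ℂ] Om) (s : Finset (Fin 12)) :
    σ (T.rr s) = T.rr s ∨ σ (T.rr s) = -T.rr s := by
  have h1 : σ (T.rr s) ^ 2 = T.rr s ^ 2 := by
    rw [← map_pow, rr_sq, aeval_tau, AlgEquiv.commutes]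
  exact sq_eq_sq_iff_eq_or_eq_neg.1 h1

/-- There is an automorphism with different signs on `r_s` and `r_t`. -/
theorem exists_sig {s t : Finset (Fin 12)} (h : s ≠ t) :
    ∃ σ : Om ≃ₐ[RatFunc ℂ] Om, (σ (T.rr s) = T.rr s ∧ σ (T.rr t) = -T.rr t) ∨
      (σ (T.rr s) = -T.rr s ∧ σ (T.rr t) = T.rr t) := by
  have hne : (symmDiff s t).Nonempty := by
    rw [Finset.nonempty_iff_ne_empty]
    intro h0
    exact h (symmDiff_eq_bot.1 h0)
  have h1 : T.rr (symmDiff s t) ∉ Set.range (algebraMap (RatFunc ℂ) Om) := by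
    rintro ⟨c, hc⟩
    exact rr_notMem T hne c hc.symm
  rw [InfiniteGalois.mem_range_algebraMap_iff_fixed] at h1
  push Not at h1
  obtain ⟨σ, hσ⟩ := h1
  refine ⟨σ, ?_⟩
  obtain ⟨c, hc⟩ := Tower.prod_mem (D := D) (s ∩ t)
  have h2 := T.rr_mul s t
  rw [hc] at h2
  have hc0 : algebraMap (RatFunc ℂ) Om c ≠ 0 := by
    intro h0
    rw [h0, zero_mul] at h2
    exact mul_ne_zero (rr_ne T s) (rr_ne T t) h2
  have h3 : σ (T.rr s) * σ (T.rr t) ≠ T.rr s * T.rr t := by
    rw [← map_mul, h2, map_mul, AlgEquiv.commutes]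
    intro h4
    exact hσ (mul_left_cancel₀ hc0 h4)
  rcases sig_rr T σ s with a | a <;> rcases sig_rr T σ t with b | b
  · exact absurd (by rw [a, b]) h3
  · exact Or.inl ⟨a, b⟩
  · exact Or.inr ⟨a, b⟩
  · exact absurd (by rw [a, b]; ring) h3

theorem rr_indep : LinearIndependent (RatFunc ℂ) (fun s : Finset (Fin 12) => T.rr s) := by
  classical
  set Γ : Set (Om →ₗ[RatFunc ℂ] Om) := Set.range fun σ : Om ≃ₐ[RatFunc ℂ] Om => σ.toLinearMap
  refine li_eigen Γ _ (rr_ne T) (fun s φ => if φ (T.rr s) = T.rr s then 1 else -1) ?_ ?_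
  · rintro s _ ⟨σ, rfl⟩
    show σ (T.rr s) = (if σ (T.rr s) = T.rr s then (1 : RatFunc ℂ) else -1) • T.rr s
    rcases sig_rr T σ s with h | h
    · rw [if_pos h, one_smul, h]
    · have hn : σ (T.rr s) ≠ T.rr s := by
        rw [h]
        intro h'
        have h2 : (2 : Om) * T.rr s = 0 := by linear_combination -h'
        exact rr_ne T s ((mul_eq_zero.1 h2).resolve_left two_ne_zero)
      rw [if_neg hn, neg_smul, one_smul, h]
  · intro s t hst
    have hneg : ∀ u : Finset (Fin 12), -T.rr u ≠ T.rr u := by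
      intro u h'
      have h2 : (2 : Om) * T.rr u = 0 := by linear_combination -h'
      exact rr_ne T u ((mul_eq_zero.1 h2).resolve_left two_ne_zero)
    obtain ⟨σ, hσ⟩ := exists_sig T hst
    refine ⟨σ.toLinearMap, ⟨σ, rfl⟩, ?_⟩
    show (if σ (T.rr s) = T.rr s then (1 : RatFunc ℂ) else -1) ≠
      if σ (T.rr t) = T.rr t then (1 : RatFunc ℂ) else -1
    have h11 : (1 : RatFunc ℂ) ≠ -1 := by
      intro h
      have h2 : (2 : RatFunc ℂ) = 0 := by linear_combination h
      exact two_ne_zero h2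
    rcases hσ with ⟨a, b⟩ | ⟨a, b⟩
    · rw [if_pos a, if_neg (by rw [b]; exact hneg t)]
      exact h11
    · rw [if_neg (by rw [a]; exact hneg s), if_pos b]
      exact h11.symm

theorem rrI1_sq : T.rr I1 ^ 2 = aeval (tau ^ 3) D.f1 := by
  rw [rr_sq, ← D.h1, aeval_comp]
  simp

theorem rrI2_sq : T.rr I2 ^ 2 = aeval (tau ^ 3) D.f2 := by
  rw [rr_sq, ← D.h2, aeval_comp]
  simp

end

theorem st_BAS : ST_BAS := by
  intro ν D T
  refine ⟨?_, ?_, ?_, rr_indep T⟩
  · have h1 := rrI1_sq T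
    have h2 := rrI2_sq T
    have h3 := congrArg (aeval (tau ^ 3)) D.pq
    rw [map_sub, map_mul, map_mul, map_pow, map_pow, map_one] at h3
    unfold Tower.G Tower.G'
    rw [← h3, ← h1, ← h2]
    ring
  · rw [y_eq, mul_pow, rrI1_sq, rrI2_sq, ← map_mul, aeval_comp]
    simp
  · have h1 := rrI1_sq T
    have h2 := rrI2_sq T
    unfold Tower.G
    rw [y_eq]
    simp only [map_add, map_mul, map_pow, map_ofNat]
    rw [← h1, ← h2]
    ring

end Pool.Agent.Helper55.RG
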