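import Pool.Agent.Helper55.RG.Drop

/-!
In a residually finite group with a law there are, arbitrarily deep, coset identities of bounded
length with different beginnings; hence the rank gradient is zero.
-/

namespace Pool.Agent.Helper55.RG

open Subgroup Filter Topology

variable {G : Type*} [Group G] {k : ℕ}

/-- `M` contains a `k`-tuple at which no nontrivial word of length at most `n` vanishes. -/
def Girth (k : ℕ) (M : Subgroup G) (n : ℕ) : Prop :=
  ∃ g : Fin k → G, (∀ i, g i ∈ M) ∧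
    ∀ v : FreeGroup (Fin k), v ≠ 1 → v.norm ≤ n → FreeGroup.lift g v ≠ 1

lemma girth_zero (M : Subgroup G) : Girth k M 0 := by
  refine ⟨fun _ => 1, fun _ => M.one_mem, ?_⟩
  intro v h1 h2
  exact absurd (FreeGroup.norm_eq_zero.mp (Nat.le_zero.mp h2)) h1

lemma girth_mono {M M' : Subgroup G} {n : ℕ} (h : M ≤ M') (hg : Girth k M n) :
    Girth k M' n := by
  obtain ⟨g, h1, h2⟩ := hg
  exact ⟨g, fun i => h (h1 i), h2⟩

lemma lift_congr (K : Subgroup G) [K.Normal] (g g' : Fin k → G)
    (h : ∀ i, g' i * (g i)⁻¹ ∈ K) (v : FreeGroup (Fin k)) :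
    FreeGroup.lift g' v ∈ K ↔ FreeGroup.lift g v ∈ K := by
  have h1 : (QuotientGroup.mk' K).comp (FreeGroup.lift g')
      = (QuotientGroup.mk' K).comp (FreeGroup.lift g) := by
    apply FreeGroup.ext_hom
    intro i
    simp only [MonoidHom.comp_apply, FreeGroup.lift_apply_of]
    rw [QuotientGroup.mk'_apply, QuotientGroup.mk'_apply, ← div_eq_one, ← QuotientGroup.mk_div,
      QuotientGroup.eq_one_iff, div_eq_mul_inv]
    exact h i
  have h2 := DFunLike.congr_fun h1 v
  simp only [MonoidHom.comp_apply, QuotientGroup.mk'_apply] at h2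
  rw [← QuotientGroup.eq_one_iff, ← QuotientGroup.eq_one_iff, h2]

theorem exists_coset_identity (N : ℕ → Subgroup G) (hanti : Antitone N)
    [∀ i, (N i).Normal] (hinf : ⨅ i, N i = ⊥) (n j : ℕ)
    (h1 : Girth k (N j) n) (h2 : ¬ Girth k (N j) (n + 1)) :
    ∃ i, j ≤ i ∧ ∃ g : Fin k → G, (∀ l, g l ∈ N j) ∧
      (∀ v : FreeGroup (Fin k), v ≠ 1 → v.norm ≤ n → FreeGroup.lift g v ∉ N i) ∧
      ∃ u : FreeGroup (Fin k), u ≠ 1 ∧ u.norm ≤ n + 1 ∧
        ∀ g' : Fin k → G, (∀ l, g' l * (g l)⁻¹ ∈ N i) → FreeGroup.lift g' u = 1 := by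
  classical
  let V : (Fin k → G) → Finset (FreeGroup (Fin k)) := fun g =>
    (ball k (n + 1)).filter (fun v => v ≠ 1 ∧ FreeGroup.lift g v = 1)
  let s : Set (Fin k → G) := {g | (∀ l, g l ∈ N j) ∧
    ∀ v : FreeGroup (Fin k), v ≠ 1 → v.norm ≤ n → FreeGroup.lift g v ≠ 1}
  have hs : s.Nonempty := by
    obtain ⟨g, h3, h4⟩ := h1
    exact ⟨g, h3, h4⟩
  obtain ⟨g, hg, hmin⟩ := (measure (fun g => (V g).card)).wf.has_min s hs
  have hVne : (V g).Nonempty := by
    by_contra hne
    rw [Finset.not_nonempty_iff_eq_empty] at hne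
    apply h2
    refine ⟨g, hg.1, ?_⟩
    intro v hv1 hv2 hv3
    have : v ∈ V g := Finset.mem_filter.mpr ⟨mem_ball.mpr hv2, hv1, hv3⟩
    rw [hne] at this
    exact absurd this (Finset.notMem_empty _)
  obtain ⟨u, hu⟩ := hVne
  obtain ⟨hu1, hu2, hu3⟩ := Finset.mem_filter.mp hu
  -- a deep member of the chain avoiding the nonvanishing values
  have hdeep : ∀ x : G, x ≠ 1 → ∃ i, x ∉ N i := by
    intro x hx
    by_contra hall
    push Not at hall
    apply hx
    have : x ∈ ⨅ i, N i := Subgroup.mem_iInf.mpr hall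
    rw [hinf] at this
    exact Subgroup.mem_bot.mp this
  choose! idx hidx using hdeep
  let W : Finset (FreeGroup (Fin k)) :=
    (ball k (n + 1)).filter (fun v => FreeGroup.lift g v ≠ 1)
  let i := max j (W.sup (fun v => idx (FreeGroup.lift g v)))
  have hi : ∀ v : FreeGroup (Fin k), v.norm ≤ n + 1 → FreeGroup.lift g v ≠ 1 →
      FreeGroup.lift g v ∉ N i := by
    intro v hv1 hv2 hv3
    have h3 : v ∈ W := Finset.mem_filter.mpr ⟨mem_ball.mpr hv1, hv2⟩
    have h4 : idx (FreeGroup.lift g v) ≤ i :=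
      le_trans (Finset.le_sup (f := fun v => idx (FreeGroup.lift g v)) h3) (le_max_right _ _)
    exact hidx _ hv2 (hanti h4 hv3)
  have hji : j ≤ i := le_max_left _ _
  refine ⟨i, hji, g, hg.1, ?_, u, hu2, mem_ball.mp hu1, ?_⟩
  · intro v hv1 hv2
    exact hi v (le_trans hv2 (Nat.le_succ n)) (hg.2 v hv1 hv2)
  · intro g' hg'
    have hsub : V g' ⊆ V g := by
      intro v hv
      obtain ⟨hv1, hv2, hv3⟩ := Finset.mem_filter.mp hv
      refine Finset.mem_filter.mpr ⟨hv1, hv2, ?_⟩
      by_contra hne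
      apply hi v (mem_ball.mp hv1) hne
      rw [← lift_congr (N i) g g' hg' v, hv3]
      exact (N i).one_mem
    have hmem : g' ∈ s := by
      refine ⟨?_, ?_⟩
      · intro l
        have h3 : g' l = (g' l * (g l)⁻¹) * g l := by group
        rw [h3]
        exact (N j).mul_mem (hanti hji (hg' l)) (hg.1 l)
      · intro v hv1 hv2 hv3
        have h3 : FreeGroup.lift g v ∈ N i := by
          rw [← lift_congr (N i) g g' hg' v, hv3]
          exact (N i).one_mem
        exact hi v (le_trans hv2 (Nat.le_succ n)) (hg.2 v hv1 hv2) h3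
    have hle : (V g).card ≤ (V g').card := by
      have := hmin g' hmem
      exact not_lt.mp this
    have heq : V g' = V g := Finset.eq_of_subset_of_card_le hsub hle
    have hu' : u ∈ V g' := by rw [heq]; exact hu
    exact (Finset.mem_filter.mp hu').2.2

theorem index_tendsto [Infinite G] (N : ℕ → Subgroup G) (hanti : Antitone N)
    [∀ i, (N i).FiniteIndex] (hinf : ⨅ i, N i = ⊥) :
    Tendsto (fun i => ((N i).index : ℝ)) atTop atTop := by
  apply tendsto_natCast_atTop_atTop.comp
  apply tendsto_atTop_atTop_of_monotone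
  · intro a b hab
    exact Nat.le_of_dvd (Nat.pos_of_ne_zero Subgroup.FiniteIndex.index_ne_zero)
      (Subgroup.index_dvd_of_le (hanti hab))
  · intro b
    classical
    obtain ⟨s, hs⟩ := Infinite.exists_subset_card_eq G b
    have hdeep : ∀ x : G, x ≠ 1 → ∃ i, x ∉ N i := by
      intro x hx
      by_contra hall
      push Not at hall
      apply hx
      have : x ∈ ⨅ i, N i := Subgroup.mem_iInf.mpr hall
      rw [hinf] at this
      exact Subgroup.mem_bot.mp this
    choose! idx hidx using hdeep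
    let i := (s ×ˢ s).sup (fun p => idx (p.1⁻¹ * p.2))
    refine ⟨i, ?_⟩
    have hinj : Set.InjOn (fun x : G => (QuotientGroup.mk x : G ⧸ N i)) (s : Set G) := by
      intro x hx y hy hxy
      by_contra hne
      have h1 : x⁻¹ * y ≠ 1 := by
        intro h
        exact hne (inv_mul_eq_one.mp h)
      have h2 : idx (x⁻¹ * y) ≤ i :=
        Finset.le_sup (f := fun p : G × G => idx (p.1⁻¹ * p.2)) (b := (x, y))
          (Finset.mem_product.mpr ⟨Finset.mem_coe.mp hx, Finset.mem_coe.mp hy⟩)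
      exact hidx _ h1 (hanti h2 (QuotientGroup.eq.mp hxy))
    have : Fintype (G ⧸ N i) := (N i).fintypeQuotientOfFiniteIndex
    rw [← hs, Subgroup.index_eq_card, Nat.card_eq_fintype_card]
    calc s.card = (s.image (fun x : G => (QuotientGroup.mk x : G ⧸ N i))).card :=
          (Finset.card_image_of_injOn hinj).symm
      _ ≤ Fintype.card (G ⧸ N i) := Finset.card_le_univ _

theorem rank_gradient_zero [Group.FG G] [Infinite G]
    (w : FreeGroup (Fin k)) (hw : w ≠ 1) (hlaw : ∀ g : Fin k → G, FreeGroup.lift g w = 1)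
    (N : ℕ → Subgroup G) (hanti : Antitone N)
    [∀ i, (N i).Normal] [∀ i, (N i).FiniteIndex] (hinf : ⨅ i, N i = ⊥) :
    Tendsto (fun i => (Group.rank (N i) : ℝ) / ((N i).index : ℝ)) atTop (𝓝 0) := by
  classical
  set ρ : ℕ → ℝ := fun i => (Group.rank (N i) : ℝ) / ((N i).index : ℝ) with hρ
  have hpos : ∀ i, (0 : ℝ) < (N i).index := fun i => by
    exact_mod_cast Nat.pos_of_ne_zero Subgroup.FiniteIndex.index_ne_zero
  have hρanti : Antitone ρ := by
    intro a b hab
    have h1 : Group.rank (N b) ≤ (N b).relIndex (N a) * Group.rank (N a) :=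
      rank_le_relIndex _ _ (hanti hab)
    have h2 : (N b).index = (N b).relIndex (N a) * (N a).index :=
      (relIndex_mul_index (hanti hab)).symm
    show (Group.rank (N b) : ℝ) / ((N b).index : ℝ) ≤ (Group.rank (N a) : ℝ) / ((N a).index : ℝ)
    rw [div_le_div_iff₀ (hpos b) (hpos a), h2]
    have h3 : (Group.rank (N b) : ℝ) ≤ ((N b).relIndex (N a) : ℝ) * Group.rank (N a) := by
      exact_mod_cast h1
    push_cast
    nlinarith [hpos a]
  have hρnn : ∀ i, 0 ≤ ρ i := fun i => div_nonneg (Nat.cast_nonneg _) (hpos i).le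
  have hbdd : BddBelow (Set.range ρ) := ⟨0, by rintro _ ⟨i, rfl⟩; exact hρnn i⟩
  have hlim : Tendsto ρ atTop (𝓝 (⨅ i, ρ i)) := tendsto_atTop_ciInf hρanti hbdd
  set r := ⨅ i, ρ i with hr
  have hr0 : 0 ≤ r := le_ciInf hρnn
  have hrle : ∀ i, r ≤ ρ i := fun i => ciInf_le hbdd i
  -- the largest girth
  have hex : ∃ n, ¬ ∀ j, Girth k (N j) n := by
    refine ⟨w.norm, ?_⟩
    intro hall
    obtain ⟨g, _, hg⟩ := hall 0
    exact hg w hw le_rfl (hlaw g)
  obtain ⟨n, hn1, hn2⟩ : ∃ n, (∀ j, Girth k (N j) n) ∧ ¬ ∀ j, Girth k (N j) (n + 1) := by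
    have h1 := Nat.find_spec hex
    have h2 : Nat.find hex ≠ 0 := by
      intro h0
      rw [h0] at h1
      exact h1 (fun j => girth_zero _)
    obtain ⟨n, hn⟩ := Nat.exists_eq_succ_of_ne_zero h2
    refine ⟨n, ?_, ?_⟩
    · by_contra h3
      have h4 := Nat.find_min' hex h3
      omega
    · rw [hn] at h1
      exact h1
  push Not at hn2
  obtain ⟨j0, hj0⟩ := hn2
  have hdrop : ∀ j, j0 ≤ j → r ≤ (k : ℝ) / ((N j).index : ℝ) + (1 - saving k n) * ρ j := by
    intro j hj
    have h2 : ¬ Girth k (N j) (n + 1) := fun h => hj0 (girth_mono (hanti hj) h)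
    obtain ⟨i, hji, g, hgM, hgirth, u, hu1, hun, hu⟩ :=
      exists_coset_identity N hanti hinf n j (hn1 j) h2
    exact le_trans (hrle i) (drop n (N j) (N i) (hanti hji) g hgM hgirth u hu1 hun hu)
  have hlim2 : Tendsto (fun j => (k : ℝ) / ((N j).index : ℝ) + (1 - saving k n) * ρ j) atTop
      (𝓝 (0 + (1 - saving k n) * r)) := by
    apply Tendsto.add
    · exact Tendsto.div_atTop tendsto_const_nhds (index_tendsto N hanti hinf)
    · exact hlim.const_mul _
  have hfin : r ≤ 0 + (1 - saving k n) * r := by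
    apply ge_of_tendsto hlim2
    filter_upwards [eventually_ge_atTop j0] with j hj
    exact hdrop j hj
  have hr1 : r = 0 := by
    have h1 := saving_pos k n
    nlinarith
  rw [← hr1]
  exact hlim

end Pool.Agent.Helper55.RG
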