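import Pool.Agent.Helper55.RG.Indep

/-!
If every element of a normal subgroup of finite index is generated by its conjugates by a few
elements outside the subgroup, then the subgroup needs a definite proportion of generators less
than the Schreier bound.
-/

namespace Pool.Agent.Helper55.RG

open Finset Subgroup

variable {G : Type*} [Group G] {k : ℕ}

theorem gen_inter (K : Subgroup G) [K.Normal] [K.FiniteIndex] (g : Fin k → G) :
    ∃ T : Finset G, (∀ t ∈ T, t ∈ K ∧ t ∈ closure (Set.range g)) ∧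
      (∀ b, b ∈ K → b ∈ closure (Set.range g) → b ∈ closure (T : Set G)) ∧
      T.card ≤ K.relIndex (closure (Set.range g)) * k := by
  classical
  set D := closure (Set.range g) with hD
  let gD : Fin k → D := fun i => ⟨g i, Subgroup.subset_closure ⟨i, rfl⟩⟩
  have hgen : closure ((Finset.univ.image gD : Finset D) : Set D) = ⊤ := by
    have h1 : closure (((↑) : D → G) ⁻¹' (Set.range g)) = ⊤ := closure_closure_coe_preimage
    rw [← h1]
    congr 1
    ext x
    simp only [coe_image, coe_univ, Set.image_univ, Set.mem_range, Set.mem_preimage]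
    constructor
    · rintro ⟨i, rfl⟩
      exact ⟨i, rfl⟩
    · rintro ⟨i, hi⟩
      exact ⟨i, Subtype.ext hi⟩
  obtain ⟨T, hT1, hT2⟩ := exists_finset_card_le_mul (K.subgroupOf D) hgen
  let f : (K.subgroupOf D) →* G := D.subtype.comp (K.subgroupOf D).subtype
  refine ⟨T.image f, ?_, ?_, ?_⟩
  · intro t ht
    obtain ⟨x, _, rfl⟩ := Finset.mem_image.mp ht
    exact ⟨mem_subgroupOf.mp x.2, (x : D).2⟩
  · intro b hbK hbD
    let x : K.subgroupOf D := ⟨⟨b, hbD⟩, mem_subgroupOf.mpr hbK⟩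
    have h1 : x ∈ closure (T : Set (K.subgroupOf D)) := by rw [hT2]; exact mem_top x
    have h2 : f x ∈ (closure (T : Set (K.subgroupOf D))).map f := mem_map_of_mem f h1
    rw [MonoidHom.map_closure] at h2
    rw [Finset.coe_image]
    exact h2
  · calc (T.image f).card ≤ T.card := Finset.card_image_le
      _ ≤ (K.subgroupOf D).index * (Finset.univ.image gD).card := hT1
      _ ≤ (K.subgroupOf D).index * k := by
          apply Nat.mul_le_mul_left
          refine le_trans Finset.card_image_le ?_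
          simp

theorem gen_bound (K : Subgroup G) [K.Normal] [K.FiniteIndex] (g : Fin k → G) (Q : Finset G)
    (hQD : ∀ q ∈ Q, q ∈ closure (Set.range g)) (hQK : ∀ q ∈ Q, q ∉ K)
    (hz : ∀ z ∈ K, z ∈ closure {x | ∃ q ∈ Q, x = q * z * q⁻¹})
    (S : Finset G) (hS : closure (S : Set G) = K ⊔ closure (Set.range g)) :
    ∃ (T : Finset G) (e : ℕ), closure (T : Set G) = K ∧
      e ≤ K.relIndex (closure (Set.range g)) ∧
      K.relIndex (closure (Set.range g)) ≤ (2 * Q.card + 1) * e ∧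
      T.card ≤ K.relIndex (closure (Set.range g)) * k
        + S.card * (K.relIndex (closure (Set.range g)) - e) := by
  classical
  obtain ⟨TB, hTB1, hTB2, hTB3⟩ := gen_inter K g
  set D := closure (Set.range g) with hD
  set L := K.subgroupOf D with hL
  have : L.Normal := inferInstance
  have : L.FiniteIndex := inferInstance
  have : Fintype (D ⧸ L) := L.fintypeQuotientOfFiniteIndex
  have hcard : Fintype.card (D ⧸ L) = K.relIndex D := by
    rw [← Nat.card_eq_fintype_card]
    rfl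
  let π : D →* D ⧸ L := QuotientGroup.mk' L
  let τ : D ⧸ L → G := fun γ => ((Quotient.out γ : D) : G)
  have hτD : ∀ γ, τ γ ∈ D := fun γ => (Quotient.out γ : D).2
  let Qb : Finset (D ⧸ L) := Q.attach.image (fun q => π ⟨q.1, hQD q.1 q.2⟩)
  have hQb : (1 : D ⧸ L) ∉ Qb := by
    intro h
    obtain ⟨q, _, hq⟩ := Finset.mem_image.mp h
    have h1 : (⟨q.1, hQD q.1 q.2⟩ : D) ∈ L := (QuotientGroup.eq_one_iff _).mp hq
    exact hQK q.1 q.2 (mem_subgroupOf.mp h1)
  obtain ⟨E, hE1, hE2⟩ := indep Qb hQb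
  have hdec : ∀ s ∈ S, ∃ z ∈ K, ∃ h ∈ D, s = z * h := by
    intro s hs
    have h1 : s ∈ K ⊔ D := by
      rw [← hS]
      exact Subgroup.subset_closure hs
    rw [← SetLike.mem_coe, normal_mul] at h1
    obtain ⟨z, hz1, h, hh, e⟩ := h1
    exact ⟨z, hz1, h, hh, e.symm⟩
  choose! zc hzc hc hhc hsc using hdec
  let T : Finset G := TB ∪ (S ×ˢ (Finset.univ \ E)).image (fun p => τ p.2 * zc p.1 * (τ p.2)⁻¹)
  set A := closure (T : Set G) with hA
  have hAK : A ≤ K := by
    rw [hA, closure_le]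
    intro x hx
    rcases Finset.mem_union.mp (Finset.mem_coe.mp hx) with h | h
    · exact (hTB1 x h).1
    · obtain ⟨p, hp, rfl⟩ := Finset.mem_image.mp h
      exact Normal.conj_mem inferInstance _ (hzc p.1 (Finset.mem_product.mp hp).1) _
  have hB : ∀ b, b ∈ K → b ∈ D → b ∈ A := by
    intro b h1 h2
    have h3 := hTB2 b h1 h2
    refine closure_mono ?_ h3
    intro x hx
    exact Finset.mem_coe.mpr (Finset.mem_union_left _ (Finset.mem_coe.mp hx))
  have hii : ∀ (h : G) (hh : h ∈ D), ∀ s ∈ S, π ⟨h, hh⟩ ∉ E → h * zc s * h⁻¹ ∈ A := by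
    intro h hh s hs hnE
    set γ := π ⟨h, hh⟩ with hγ
    have h1 : h * (τ γ)⁻¹ ∈ D := D.mul_mem hh (D.inv_mem (hτD γ))
    have h2 : h * (τ γ)⁻¹ ∈ K := by
      have h3 : π (⟨h, hh⟩ * (Quotient.out γ : D)⁻¹) = 1 := by
        have h4 : π (Quotient.out γ : D) = γ := Quotient.out_eq γ
        rw [map_mul, map_inv, h4, ← hγ, mul_inv_cancel]
      have h5 : (⟨h, hh⟩ * (Quotient.out γ : D)⁻¹ : D) ∈ L := (QuotientGroup.eq_one_iff _).mp h3
      exact mem_subgroupOf.mp h5
    have h3 := hB _ h2 h1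
    have h4 : τ γ * zc s * (τ γ)⁻¹ ∈ A := by
      apply Subgroup.subset_closure
      refine Finset.mem_coe.mpr (Finset.mem_union_right _ (Finset.mem_image.mpr ⟨(s, γ), ?_, rfl⟩))
      exact Finset.mem_product.mpr ⟨hs, Finset.mem_sdiff.mpr ⟨Finset.mem_univ _, hnE⟩⟩
    have h5 := A.mul_mem (A.mul_mem h3 h4) (A.inv_mem h3)
    have e : h * (τ γ)⁻¹ * (τ γ * zc s * (τ γ)⁻¹) * (h * (τ γ)⁻¹)⁻¹ = h * zc s * h⁻¹ := by group
    rw [← e]
    exact h5
  have hiii : ∀ h ∈ D, ∀ s ∈ S, h * zc s * h⁻¹ ∈ A := by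
    intro h hh s hs
    by_cases hE : π ⟨h, hh⟩ ∈ E
    · have h1 := hz (zc s) (hzc s hs)
      have h2 : closure {x | ∃ q ∈ Q, x = q * zc s * q⁻¹} ≤ A.comap (MulAut.conj h).toMonoidHom := by
        rw [closure_le]
        rintro x ⟨q, hq, rfl⟩
        show h * (q * zc s * q⁻¹) * h⁻¹ ∈ A
        have h3 : h * (q * zc s * q⁻¹) * h⁻¹ = (h * q) * zc s * (h * q)⁻¹ := by group
        rw [h3]
        refine hii (h * q) (D.mul_mem hh (hQD q hq)) s hs ?_
        have h4 : π ⟨h * q, D.mul_mem hh (hQD q hq)⟩ = π ⟨h, hh⟩ * π ⟨q, hQD q hq⟩ := by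
          rw [← map_mul]
          rfl
        rw [h4]
        refine hE1 _ hE _ ?_
        exact Finset.mem_image.mpr ⟨⟨q, hq⟩, Finset.mem_attach _ _, rfl⟩
      exact h2 h1
    · exact hii h hh s hs hE
  have hconj : ∀ h ∈ D, ∀ a ∈ A, h * a * h⁻¹ ∈ A := by
    intro h hh
    have h1 : A ≤ A.comap (MulAut.conj h).toMonoidHom := by
      rw [hA, closure_le, ← hA]
      intro x hx
      show h * x * h⁻¹ ∈ A
      rcases Finset.mem_union.mp (Finset.mem_coe.mp hx) with h2 | h2
      · obtain ⟨h3, h4⟩ := hTB1 x h2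
        exact hB _ (Normal.conj_mem inferInstance _ h3 _) (D.mul_mem (D.mul_mem hh h4) (D.inv_mem hh))
      · obtain ⟨p, hp, rfl⟩ := Finset.mem_image.mp h2
        have h3 : h * (τ p.2 * zc p.1 * (τ p.2)⁻¹) * h⁻¹
            = (h * τ p.2) * zc p.1 * (h * τ p.2)⁻¹ := by group
        rw [h3]
        exact hiii _ (D.mul_mem hh (hτD _)) _ (Finset.mem_product.mp hp).1
    intro a ha
    exact h1 ha
  have hprod : ∀ x ∈ closure (S : Set G), ∃ a ∈ A, ∃ h ∈ D, x = a * h := by
    intro x hx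
    induction hx using closure_induction with
    | mem s hs =>
      refine ⟨zc s, ?_, hc s, hhc s hs, hsc s hs⟩
      have := hiii 1 D.one_mem s hs
      simpa using this
    | one => exact ⟨1, A.one_mem, 1, D.one_mem, by simp⟩
    | mul x y _ _ hx hy =>
      obtain ⟨a, ha, h, hh, rfl⟩ := hx
      obtain ⟨a', ha', h', hh', rfl⟩ := hy
      refine ⟨a * (h * a' * h⁻¹), A.mul_mem ha (hconj h hh a' ha'), h * h', D.mul_mem hh hh', ?_⟩
      group
    | inv x _ hx =>
      obtain ⟨a, ha, h, hh, rfl⟩ := hx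
      refine ⟨h⁻¹ * a⁻¹ * (h⁻¹)⁻¹, hconj _ (D.inv_mem hh) _ (A.inv_mem ha), h⁻¹, D.inv_mem hh, ?_⟩
      group
  refine ⟨T, E.card, ?_, ?_, ?_, ?_⟩
  · apply le_antisymm hAK
    intro x hx
    obtain ⟨a, ha, h, hh, rfl⟩ := hprod x (by rw [hS]; exact mem_sup_left hx)
    have h1 : h ∈ K := by
      have h2 := K.mul_mem (K.inv_mem (hAK ha)) hx
      simpa using h2
    exact A.mul_mem ha (hB h h1 hh)
  · rw [← hcard]
    exact Finset.card_le_univ E
  · rw [← hcard]
    refine le_trans hE2 (Nat.mul_le_mul_right _ ?_)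
    have h1 : Qb.card ≤ Q.card := by
      refine le_trans Finset.card_image_le ?_
      rw [Finset.card_attach]
    omega
  · refine le_trans (Finset.card_union_le _ _) (Nat.add_le_add hTB3 ?_)
    refine le_trans Finset.card_image_le ?_
    rw [Finset.card_product, ← hcard, Finset.card_sdiff_of_subset (Finset.subset_univ _)]
    exact le_rfl

end Pool.Agent.Helper55.RG
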