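import Pool.Agent.Helper55.RG.Words
import Pool.Agent.Helper55.RG.Gen

/-!
The drop of the normalised rank caused by a coset identity.
-/

namespace Pool.Agent.Helper55.RG

open Subgroup

variable {G : Type*} [Group G] {k : ℕ}

theorem finite_ball (k n : ℕ) : {u : FreeGroup (Fin k) | u.norm ≤ n}.Finite := by
  have h1 : {l : List (Fin k × Bool) | l.length ≤ n}.Finite := List.finite_length_le _ _
  have h2 := Set.Finite.preimage (f := FreeGroup.toWord)
    (s := {l : List (Fin k × Bool) | l.length ≤ n})
    (FreeGroup.toWord_injective.injOn) h1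
  exact h2

/-- The finite set of words of length at most `n`. -/
noncomputable def ball (k n : ℕ) : Finset (FreeGroup (Fin k)) := (finite_ball k n).toFinset

lemma mem_ball {k n : ℕ} {u : FreeGroup (Fin k)} : u ∈ ball k n ↔ u.norm ≤ n := by
  simp [ball]

theorem rank_le_relIndex [Group.FG G] (H M : Subgroup G) [H.FiniteIndex] [M.FiniteIndex]
    (h : H ≤ M) : Group.rank H ≤ H.relIndex M * Group.rank M := by
  have h1 := Subgroup.rank_le_index_mul_rank (H.subgroupOf M)
  have h2 : Group.rank (H.subgroupOf M) = Group.rank H :=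
    Group.rank_congr (subgroupOfEquivOfLe h)
  rw [← h2]
  exact h1

theorem exists_gen [Group.FG G] (H : Subgroup G) [H.FiniteIndex] :
    ∃ S : Finset G, closure (S : Set G) = H ∧ S.card = Group.rank H := by
  classical
  obtain ⟨S, hS1, hS2⟩ := Group.rank_spec H
  refine ⟨S.image H.subtype, ?_, ?_⟩
  · rw [Finset.coe_image, ← MonoidHom.map_closure, hS2, ← MonoidHom.range_eq_map,
      Subgroup.range_subtype]
  · rw [Finset.card_image_of_injective _ H.subtype_injective, hS1]

theorem rank_le_card [Group.FG G] (K : Subgroup G) [K.FiniteIndex] (T : Finset G)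
    (hT : closure (T : Set G) = K) : Group.rank K ≤ T.card := by
  have h1 := Subgroup.rank_closure_finset_le_card T
  rw [← Subgroup.rank_congr hT]
  exact h1

/-- The proportion of generators that is saved. -/
noncomputable def saving (k n : ℕ) : ℝ := 1 / (2 * ((ball k n).card : ℝ) + 1)

lemma saving_pos (k n : ℕ) : 0 < saving k n := by
  unfold saving
  positivity

lemma saving_le_one (k n : ℕ) : saving k n ≤ 1 := by
  unfold saving
  rw [div_le_one (by positivity)]
  have : (0 : ℝ) ≤ ((ball k n).card : ℝ) := Nat.cast_nonneg _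
  linarith

theorem drop [Group.FG G] (n : ℕ) (M K : Subgroup G) [M.FiniteIndex] [K.FiniteIndex] [K.Normal]
    (hKM : K ≤ M) (g : Fin k → G) (hgM : ∀ i, g i ∈ M)
    (hgirth : ∀ v : FreeGroup (Fin k), v ≠ 1 → v.norm ≤ n → FreeGroup.lift g v ∉ K)
    (u : FreeGroup (Fin k)) (hu1 : u ≠ 1) (hun : u.norm ≤ n + 1)
    (hu : ∀ g' : Fin k → G, (∀ i, g' i * (g i)⁻¹ ∈ K) → FreeGroup.lift g' u = 1) :
    (Group.rank K : ℝ) / (K.index : ℝ) ≤
      (k : ℝ) / (M.index : ℝ) + (1 - saving k n) * ((Group.rank M : ℝ) / (M.index : ℝ)) := by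
  classical
  set D := closure (Set.range g) with hD
  have hDM : D ≤ M := by
    rw [hD, closure_le]
    rintro x ⟨i, rfl⟩
    exact hgM i
  set H := K ⊔ D with hH
  have hHM : H ≤ M := sup_le hKM hDM
  have hKH : K ≤ H := le_sup_left
  have : H.FiniteIndex := Subgroup.finiteIndex_of_le hKH
  obtain ⟨S, hS1, hS2⟩ := exists_gen H
  set Q : Finset G := ((ball k n).filter (fun v => v ≠ 1)).image (fun v => FreeGroup.lift g v)
    with hQ
  have hQcard : Q.card ≤ (ball k n).card :=
    le_trans Finset.card_image_le (Finset.card_filter_le _ _)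
  have hliftD : ∀ v : FreeGroup (Fin k), FreeGroup.lift g v ∈ D := by
    intro v
    have h1 : FreeGroup.lift g v ∈ (FreeGroup.lift g).range := ⟨v, rfl⟩
    rw [FreeGroup.range_lift_eq_closure] at h1
    exact h1
  have hQD : ∀ q ∈ Q, q ∈ closure (Set.range g) := by
    intro q hq
    obtain ⟨v, _, rfl⟩ := Finset.mem_image.mp hq
    exact hliftD v
  have hQK : ∀ q ∈ Q, q ∉ K := by
    intro q hq
    obtain ⟨v, hv, rfl⟩ := Finset.mem_image.mp hq
    obtain ⟨h1, h2⟩ := Finset.mem_filter.mp hv
    exact hgirth v h2 (mem_ball.mp h1)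
  have hz : ∀ z ∈ K, z ∈ closure {x | ∃ q ∈ Q, x = q * z * q⁻¹} := by
    intro z hzK
    have h1 := key K g n hgirth u hu1 hun hu z hzK
    refine closure_mono ?_ h1
    rintro x ⟨v, hv1, hv2, rfl⟩
    exact ⟨FreeGroup.lift g v, Finset.mem_image.mpr
      ⟨v, Finset.mem_filter.mpr ⟨mem_ball.mpr hv2, hv1⟩, rfl⟩, rfl⟩
  obtain ⟨T, e, hT, he1, he2, hT2⟩ := gen_bound K g Q hQD hQK hz S hS1
  rw [← hD] at he1 he2 hT2
  set m := K.relIndex D with hm
  have hrel : K.relIndex H = m := by
    rw [hH, relIndex_sup_left]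
  have hmpos : 0 < m := by
    rw [← hrel]
    have h1 : K.relIndex H ≠ 0 := by
      intro h0
      have h2 : K.index = 0 := by
        rw [← relIndex_mul_index hKH, h0, zero_mul]
      exact Subgroup.FiniteIndex.index_ne_zero h2
    exact Nat.pos_of_ne_zero h1
  have hK : K.index = m * H.index := by
    rw [← relIndex_mul_index hKH, hrel]
  have hHi : H.index = H.relIndex M * M.index := (relIndex_mul_index hHM).symm
  have hMpos : 0 < M.index := Nat.pos_of_ne_zero Subgroup.FiniteIndex.index_ne_zero
  have hHpos : 0 < H.index := Nat.pos_of_ne_zero Subgroup.FiniteIndex.index_ne_zero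
  have hrelHM : 0 < H.relIndex M := by
    rcases Nat.eq_zero_or_pos (H.relIndex M) with h | h
    · rw [hHi, h, zero_mul] at hHpos
      exact absurd hHpos (lt_irrefl 0)
    · exact h
  have hrankH : Group.rank H ≤ H.relIndex M * Group.rank M := rank_le_relIndex H M hHM
  have hrankK : Group.rank K ≤ m * k + Group.rank H * (m - e) := by
    rw [← hS2]
    exact le_trans (rank_le_card K T hT) hT2
  -- pass to real numbers
  have r1 : (Group.rank K : ℝ) ≤ m * k + Group.rank H * (m - e) := by
    have h1 : ((m - e : ℕ) : ℝ) = (m : ℝ) - e := by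
      rw [Nat.cast_sub he1]
    have h2 : (Group.rank K : ℝ) ≤ ((m * k + Group.rank H * (m - e) : ℕ) : ℝ) := by
      exact_mod_cast hrankK
    rw [Nat.cast_add, Nat.cast_mul, Nat.cast_mul, h1] at h2
    exact h2
  have r2 : (m : ℝ) ≤ (2 * ((ball k n).card : ℝ) + 1) * e := by
    have h1 : m ≤ (2 * (ball k n).card + 1) * e :=
      le_trans he2 (Nat.mul_le_mul_right _ (by omega))
    exact_mod_cast h1
  have r3 : saving k n * m ≤ e := by
    unfold saving
    rw [div_mul_eq_mul_div, one_mul, div_le_iff₀ (by positivity)]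
    linarith
  have mpos : (0 : ℝ) < m := by exact_mod_cast hmpos
  have Mpos : (0 : ℝ) < (M.index : ℝ) := by exact_mod_cast hMpos
  have Hpos : (0 : ℝ) < (H.index : ℝ) := by exact_mod_cast hHpos
  have r4 : (Group.rank H : ℝ) / H.index ≤ (Group.rank M : ℝ) / M.index := by
    rw [div_le_div_iff₀ Hpos Mpos, hHi]
    have h1 : (Group.rank H : ℝ) ≤ (H.relIndex M : ℝ) * Group.rank M := by exact_mod_cast hrankH
    push_cast
    nlinarith
  have r5 : (M.index : ℝ) ≤ H.index := by
    have h1 : M.index ≤ H.index := by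
      rw [hHi]
      exact Nat.le_mul_of_pos_left _ hrelHM
    exact_mod_cast h1
  have r6 : (k : ℝ) / H.index ≤ (k : ℝ) / M.index :=
    div_le_div_of_nonneg_left (Nat.cast_nonneg _) Mpos r5
  have r7 : (Group.rank K : ℝ) ≤ m * k + Group.rank H * ((1 - saving k n) * m) := by
    have h1 : (Group.rank H : ℝ) * (m - e) ≤ Group.rank H * ((1 - saving k n) * m) := by
      apply mul_le_mul_of_nonneg_left _ (Nat.cast_nonneg _)
      linarith
    linarith
  have r8 : (Group.rank K : ℝ) / K.index ≤
      (k : ℝ) / H.index + (1 - saving k n) * ((Group.rank H : ℝ) / H.index) := by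
    rw [hK]
    push_cast
    rw [div_le_iff₀ (by positivity)]
    have h1 : ((k : ℝ) / H.index + (1 - saving k n) * ((Group.rank H : ℝ) / H.index))
        * (m * H.index) = m * k + Group.rank H * ((1 - saving k n) * m) := by
      field_simp
    rw [h1]
    exact r7
  have r9 : (1 - saving k n) * ((Group.rank H : ℝ) / H.index)
      ≤ (1 - saving k n) * ((Group.rank M : ℝ) / M.index) := by
    apply mul_le_mul_of_nonneg_left r4
    have := saving_le_one k n
    linarith
  linarith

end Pool.Agent.Helper55.RG
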