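import Pool.Agent.Helper67.RG.EStmts
import Pool.Agent.Helper55.RG.BAS

namespace Pool.Agent.Helper55.RG

open Polynomial Pool.Agent.Helper67.RG

/-- The ring `ℂ[t][y]/(y² - F)`. -/
abbrev Q2 (F : ℂ[X]) : Type := QuadraticAlgebra ℂ[X] F 0

/-- the filtration -/
def SS {F : ℂ[X]} (k : ℕ) (z : Q2 F) : Prop := z.re.natDegree ≤ k ∧ (X ^ 6 * z.im).natDegree ≤ k

/-- leading part at the first place -/
noncomputable def Lp {F : ℂ[X]} (z : Q2 F) : ℂ[X] := z.re + X ^ 6 * z.im

section

variable {F : ℂ[X]}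

theorem SS.mono {k l : ℕ} {z : Q2 F} (h : SS k z) (hkl : k ≤ l) : SS l z :=
  ⟨h.1.trans hkl, h.2.trans hkl⟩

theorem SS.cj {k : ℕ} {z : Q2 F} (h : SS k z) : SS k (star z) := by
  constructor
  · simpa using h.1
  · simpa using h.2

theorem natDegree_X6 {p : ℂ[X]} (hp : p ≠ 0) : (X ^ 6 * p).natDegree = 6 + p.natDegree := by
  rw [natDegree_mul (pow_ne_zero _ X_ne_zero) hp, natDegree_X_pow]

theorem Lp_mul (z w : Q2 F) : Lp (z * w) = Lp z * Lp w + (F - X ^ 12) * (z.im * w.im) := by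
  unfold Lp
  simp only [QuadraticAlgebra.re_mul, QuadraticAlgebra.im_mul]
  ring

theorem rem_deg (hF : (F - X ^ 12).natDegree ≤ 11) {k l : ℕ} {z w : Q2 F} (hz : SS k z)
    (hw : SS l w) : ((F - X ^ 12) * (z.im * w.im)).coeff (k + l) = 0 := by
  by_cases h1 : z.im = 0
  · rw [h1]; simp
  by_cases h2 : w.im = 0
  · rw [h2]; simp
  have h3 := hz.2
  have h4 := hw.2
  rw [natDegree_X6 h1] at h3
  rw [natDegree_X6 h2] at h4
  apply coeff_eq_zero_of_natDegree_lt
  have h5 : ((F - X ^ 12) * (z.im * w.im)).natDegree ≤ 11 + (z.im.natDegree + w.im.natDegree) :=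
    natDegree_mul_le_of_le hF (natDegree_mul_le_of_le le_rfl le_rfl)
  omega

theorem SS.LpD {k : ℕ} {z : Q2 F} (h : SS k z) : (Lp z).natDegree ≤ k :=
  natDegree_add_le_of_degree_le h.1 h.2

theorem coeff_Lp_mul (hF : (F - X ^ 12).natDegree ≤ 11) {k l : ℕ} {z w : Q2 F} (hz : SS k z)
    (hw : SS l w) : (Lp (z * w)).coeff (k + l) = (Lp z).coeff k * (Lp w).coeff l := by
  rw [Lp_mul, coeff_add, rem_deg hF hz hw, add_zero,
    coeff_mul_add_eq_of_natDegree_le hz.LpD hw.LpD]

theorem SS.mul (hF : (F - X ^ 12).natDegree ≤ 11) {k l : ℕ} {z w : Q2 F} (hz : SS k z)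
    (hw : SS l w) : SS (k + l) (z * w) := by
  constructor
  · rw [QuadraticAlgebra.re_mul]
    apply natDegree_add_le_of_degree_le
    · exact natDegree_mul_le_of_le hz.1 hw.1
    · have e : F * z.im * w.im = (F - X ^ 12) * (z.im * w.im) + (X ^ 6 * z.im) * (X ^ 6 * w.im) := by
        ring
      rw [e]
      apply natDegree_add_le_of_degree_le
      · by_cases h1 : z.im = 0
        · rw [h1]; simp
        by_cases h2 : w.im = 0
        · rw [h2]; simp
        have h3 := hz.2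
        have h4 := hw.2
        rw [natDegree_X6 h1] at h3
        rw [natDegree_X6 h2] at h4
        have h5 : ((F - X ^ 12) * (z.im * w.im)).natDegree ≤
            11 + (z.im.natDegree + w.im.natDegree) :=
          natDegree_mul_le_of_le hF (natDegree_mul_le_of_le le_rfl le_rfl)
        omega
      · exact natDegree_mul_le_of_le hz.2 hw.2
  · rw [QuadraticAlgebra.im_mul]
    have e : X ^ 6 * (z.re * w.im + z.im * w.re + 0 * z.im * w.im) =
        z.re * (X ^ 6 * w.im) + (X ^ 6 * z.im) * w.re := by ring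
    rw [e]
    apply natDegree_add_le_of_degree_le
    · exact natDegree_mul_le_of_le hz.1 hw.2
    · exact natDegree_mul_le_of_le hz.2 hw.1

theorem SS.one : SS 0 (1 : Q2 F) := by
  constructor
  · show (1 : ℂ[X]).natDegree ≤ 0
    simp
  · show (X ^ 6 * (0 : ℂ[X])).natDegree ≤ 0
    simp

theorem SS.pow (hF : (F - X ^ 12).natDegree ≤ 11) {k : ℕ} {z : Q2 F} (hz : SS k z) (n : ℕ) :
    SS (n * k) (z ^ n) := by
  induction n with
  | zero => rw [pow_zero, zero_mul]; exact SS.one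
  | succ n ih =>
    rw [pow_succ, Nat.succ_mul]
    exact ih.mul hF hz

theorem Lp_one : Lp (1 : Q2 F) = 1 := by
  unfold Lp
  show (1 : ℂ[X]) + X ^ 6 * 0 = 1
  ring

theorem coeff_Lp_pow (hF : (F - X ^ 12).natDegree ≤ 11) {k : ℕ} {z : Q2 F} (hz : SS k z) (n : ℕ) :
    (Lp (z ^ n)).coeff (n * k) = (Lp z).coeff k ^ n := by
  induction n with
  | zero => rw [pow_zero, zero_mul, pow_zero, Lp_one]; simp
  | succ n ih =>
    rw [pow_succ, Nat.succ_mul, coeff_Lp_mul hF (hz.pow hF n) hz, ih, pow_succ]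

theorem exists_SS (z : Q2 F) : ∃ k, SS k z :=
  ⟨max z.re.natDegree (X ^ 6 * z.im).natDegree, le_max_left _ _, le_max_right _ _⟩

theorem Lp_star (z : Q2 F) : Lp (star z) = z.re - X ^ 6 * z.im := by
  unfold Lp
  simp only [QuadraticAlgebra.re_star, QuadraticAlgebra.im_star]
  ring

/-- if both leading coefficients vanish, the degree drops -/
theorem SS.drop {k : ℕ} {z : Q2 F} (hz : SS k z) (h1 : (Lp z).coeff k = 0)
    (h2 : (Lp (star z)).coeff k = 0) : SS (k - 1) z := by
  rw [Lp_star, coeff_sub] at h2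
  unfold Lp at h1
  rw [coeff_add] at h1
  have h3 : z.re.coeff k = 0 := by linear_combination (h1 + h2) / 2
  have h4 : (X ^ 6 * z.im).coeff k = 0 := by linear_combination (h1 - h2) / 2
  exact ⟨natDegree_le_pred hz.1 h3, natDegree_le_pred hz.2 h4⟩

theorem SS.root (hF : (F - X ^ 12).natDegree ≤ 11) {k n : ℕ} (hn : 1 ≤ n) {z : Q2 F}
    (h : SS (n * k) (z ^ n)) : SS k z := by
  classical
  have hex := exists_SS z
  have hmin := Nat.find_spec hex
  set m := Nat.find hex with hm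
  by_cases hmk : m ≤ k
  · exact hmin.mono hmk
  exfalso
  push Not at hmk
  have hlt : n * k < n * m := Nat.mul_lt_mul_of_pos_left hmk hn
  have h1 : (Lp (z ^ n)).coeff (n * m) = 0 :=
    coeff_eq_zero_of_natDegree_lt (lt_of_le_of_lt h.LpD hlt)
  rw [coeff_Lp_pow hF hmin] at h1
  have h2 : (Lp (star z ^ n)).coeff (n * m) = 0 := by
    rw [← star_pow]
    exact coeff_eq_zero_of_natDegree_lt (lt_of_le_of_lt h.cj.LpD hlt)
  rw [coeff_Lp_pow hF hmin.cj] at h2
  have h3 := hmin.drop (pow_eq_zero_iff (by omega) |>.1 h1) (pow_eq_zero_iff (by omega) |>.1 h2)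
  have h4 := Nat.find_min' hex h3
  omega

theorem C_re (c : ℂ[X]) : (QuadraticAlgebra.C c : Q2 F).re = c := rfl

theorem C_SS (c : ℂ[X]) : SS c.natDegree (QuadraticAlgebra.C c : Q2 F) := by
  constructor
  · exact le_rfl
  · show (X ^ 6 * (0 : ℂ[X])).natDegree ≤ _
    simp

theorem Lp_C (c : ℂ[X]) : Lp (QuadraticAlgebra.C c : Q2 F) = c := by
  unfold Lp
  show c + X ^ 6 * 0 = c
  ring

end

section

variable {ν : ℕ} (D : Pell ν)

/-- `f (t³)` -/
noncomputable def FF : ℂ[X] := (D.f1 * D.f2).comp (X ^ 3)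

/-- `al` -/
noncomputable def al : ℂ[X] := D.f2 * D.p ^ 2 + D.f1 * D.q ^ 2

/-- `be` -/
noncomputable def bt : ℂ[X] := 2 * D.p * D.q

/-- the unit `g = G²` -/
noncomputable def gg : Q2 (FF D) := ⟨(al D).comp (X ^ 3), (bt D).comp (X ^ 3)⟩

theorem FF_deg : (FF D - X ^ 12).natDegree ≤ 11 := by
  have hm : (FF D).Monic := by
    unfold FF
    rw [mul_comp]
    apply Monic.mul
    · rw [D.h1]; exact monic_prod_of_monic _ _ fun i _ => monic_X_sub_C _
    · rw [D.h2]; exact monic_prod_of_monic _ _ fun i _ => monic_X_sub_C _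
  have hd : (FF D).natDegree = 12 := by
    unfold FF
    rw [natDegree_comp, natDegree_X_pow, natDegree_mul D.m1.ne_zero D.m2.ne_zero, D.d1, D.d2]
  have h1 : (FF D - X ^ 12).natDegree ≤ 12 := by
    refine (natDegree_sub_le _ _).trans ?_
    rw [hd, natDegree_X_pow]
    simp
  have h2 : (FF D - X ^ 12).coeff 12 = 0 := by
    rw [coeff_sub, coeff_X_pow, if_pos rfl]
    have := hm.coeff_natDegree
    rw [hd] at this
    rw [this, sub_self]
  exact natDegree_le_pred h1 h2

theorem al_bt : al D ^ 2 - D.f1 * D.f2 * bt D ^ 2 = 1 := by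
  have h := D.pq
  unfold al bt
  have e : (D.f2 * D.p ^ 2 + D.f1 * D.q ^ 2) ^ 2 - D.f1 * D.f2 * (2 * D.p * D.q) ^ 2 =
      (D.f2 * D.p ^ 2 - D.f1 * D.q ^ 2) ^ 2 := by ring
  rw [e, h, one_pow]

theorem gg_star : gg D * star (gg D) = 1 := by
  have h := congrArg (fun P : ℂ[X] => P.comp (X ^ 3)) (al_bt D)
  simp only [sub_comp, mul_comp, pow_comp, one_comp] at h
  ext1
  · rw [QuadraticAlgebra.re_mul, QuadraticAlgebra.re_star, QuadraticAlgebra.im_star]
    show (al D).comp (X ^ 3) * ((al D).comp (X ^ 3) + 0 * (bt D).comp (X ^ 3)) +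
      FF D * (bt D).comp (X ^ 3) * (-(bt D).comp (X ^ 3)) = 1
    unfold FF
    rw [mul_comp]
    rw [← h]
    ring
  · rw [QuadraticAlgebra.im_mul, QuadraticAlgebra.re_star, QuadraticAlgebra.im_star]
    show (al D).comp (X ^ 3) * (-(bt D).comp (X ^ 3)) +
      (bt D).comp (X ^ 3) * ((al D).comp (X ^ 3) + 0 * (bt D).comp (X ^ 3)) +
      0 * (bt D).comp (X ^ 3) * (-(bt D).comp (X ^ 3)) = 0
    ring

theorem p_ne : D.p ≠ 0 := by
  intro h
  have h1 := D.dp
  have h2 := D.hν
  rw [h, natDegree_zero] at h1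
  omega

theorem q_ne : D.q ≠ 0 := by
  intro h
  have h1 := D.dq
  have h2 := D.hν
  rw [h, natDegree_zero] at h1
  omega

/-- leading coefficients -/
theorem lead_ne : D.p.coeff (ν - 1) ≠ 0 := by
  have h := leadingCoeff_ne_zero.2 (p_ne D)
  rw [leadingCoeff, D.dp] at h
  exact h

theorem c2_1 : D.f1.coeff 2 = 1 := by
  have := D.m1.coeff_natDegree
  rwa [D.d1] at this

theorem c2_2 : D.f2.coeff 2 = 1 := by
  have := D.m2.coeff_natDegree
  rwa [D.d2] at this

theorem term_deg {f p : ℂ[X]} (hf : f.natDegree ≤ 2) {m : ℕ} (hp : p.natDegree ≤ m) :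
    (f * p ^ 2).natDegree ≤ 2 + (m + m) := by
  rw [sq]
  exact natDegree_mul_le_of_le hf (natDegree_mul_le_of_le hp hp)

theorem term_coeff {f p : ℂ[X]} (hf : f.natDegree ≤ 2) {m : ℕ} (hp : p.natDegree ≤ m) :
    (f * p ^ 2).coeff (2 + (m + m)) = f.coeff 2 * (p.coeff m) ^ 2 := by
  rw [sq, coeff_mul_add_eq_of_natDegree_le hf (natDegree_mul_le_of_le hp hp),
    coeff_mul_add_eq_of_natDegree_le hp hp, sq]

theorem al_deg : (al D).natDegree ≤ 2 * ν := by
  have h2 := D.hν
  have e : 2 * ν = 2 + ((ν - 1) + (ν - 1)) := by omega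
  rw [e]
  exact natDegree_add_le_of_degree_le (term_deg D.d2.le D.dp.le) (term_deg D.d1.le D.dq.le)

theorem al_coeff : (al D).coeff (2 * ν) = D.p.coeff (ν - 1) ^ 2 + D.q.coeff (ν - 1) ^ 2 := by
  have h2 := D.hν
  have e : 2 * ν = 2 + ((ν - 1) + (ν - 1)) := by omega
  rw [e, al, coeff_add, term_coeff D.d2.le D.dp.le, term_coeff D.d1.le D.dq.le, c2_1, c2_2]
  ring

theorem sq_eq : D.p.coeff (ν - 1) ^ 2 = D.q.coeff (ν - 1) ^ 2 := by
  have h2 := D.hν
  have h := congrArg (fun P : ℂ[X] => P.coeff (2 + ((ν - 1) + (ν - 1)))) D.pq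
  simp only [coeff_sub] at h
  rw [term_coeff D.d2.le D.dp.le, term_coeff D.d1.le D.dq.le, c2_1, c2_2, coeff_one,
    if_neg (by omega)] at h
  linear_combination h

theorem X2bt_deg : (X ^ 2 * bt D).natDegree ≤ 2 * ν := by
  have h2 := D.hν
  have e : 2 * ν = 2 + ((ν - 1) + (ν - 1)) := by omega
  rw [e]
  have e2 : bt D = C 2 * D.p * D.q := by unfold bt; rw [map_ofNat]
  rw [e2]
  refine natDegree_mul_le_of_le (natDegree_X_pow_le 2) (natDegree_mul_le_of_le ?_ D.dq.le)
  exact (natDegree_C_mul_le _ _).trans D.dp.le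

theorem X2bt_coeff : (X ^ 2 * bt D).coeff (2 * ν) =
    2 * (D.p.coeff (ν - 1) * D.q.coeff (ν - 1)) := by
  have h2 := D.hν
  have e : 2 * ν = 2 + ((ν - 1) + (ν - 1)) := by omega
  have e2 : bt D = C 2 * (D.p * D.q) := by unfold bt; rw [map_ofNat]; ring
  rw [e, e2, coeff_mul_add_eq_of_natDegree_le (natDegree_X_pow_le 2)
    ((natDegree_C_mul_le _ _).trans (natDegree_mul_le_of_le D.dp.le D.dq.le)), coeff_C_mul,
    coeff_mul_add_eq_of_natDegree_le D.dp.le D.dq.le, coeff_X_pow, if_pos rfl, one_mul]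

theorem comp3_deg {p : ℂ[X]} {m : ℕ} (h : p.natDegree ≤ m) :
    (p.comp (X ^ 3)).natDegree ≤ m * 3 := by
  rw [natDegree_comp, natDegree_X_pow]
  exact Nat.mul_le_mul_right 3 h

theorem comp3_coeff (p : ℂ[X]) (m : ℕ) : (p.comp (X ^ 3)).coeff (m * 3) = p.coeff m := by
  rw [← expand_eq_comp_X_pow, coeff_expand_mul (by norm_num)]

theorem X6_comp (p : ℂ[X]) : X ^ 6 * p.comp (X ^ 3) = (X ^ 2 * p).comp (X ^ 3) := by
  rw [mul_comp, X_pow_comp, ← pow_mul]

theorem gg_SS : SS (2 * ν * 3) (gg D) := by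
  constructor
  · exact comp3_deg (al_deg D)
  · show (X ^ 6 * (bt D).comp (X ^ 3)).natDegree ≤ _
    rw [X6_comp]
    exact comp3_deg (X2bt_deg D)

theorem gg_Lp : (Lp (gg D)).coeff (2 * ν * 3) = (D.p.coeff (ν - 1) + D.q.coeff (ν - 1)) ^ 2 := by
  unfold Lp
  show ((al D).comp (X ^ 3) + X ^ 6 * (bt D).comp (X ^ 3)).coeff _ = _
  rw [X6_comp, coeff_add, comp3_coeff, comp3_coeff, al_coeff, X2bt_coeff]
  ring

theorem gg_Lm : (Lp (star (gg D))).coeff (2 * ν * 3) =
    (D.p.coeff (ν - 1) - D.q.coeff (ν - 1)) ^ 2 := by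
  rw [Lp_star]
  show ((al D).comp (X ^ 3) - X ^ 6 * (bt D).comp (X ^ 3)).coeff _ = _
  rw [X6_comp, coeff_sub, comp3_coeff, comp3_coeff, al_coeff, X2bt_coeff]
  ring

/-- `c g^i` has full degree -/
theorem full {c : ℂ[X]} (hc : c ≠ 0) {i : ℕ} (hi : 0 < i) {k : ℕ}
    (h : SS k (QuadraticAlgebra.C c * gg D ^ i : Q2 (FF D))) :
    c.natDegree + i * (2 * ν * 3) ≤ k := by
  by_contra hlt
  push Not at hlt
  have hF := FF_deg D
  have h1 : (Lp (QuadraticAlgebra.C c * gg D ^ i : Q2 (FF D))).coeff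
      (c.natDegree + i * (2 * ν * 3)) = 0 :=
    coeff_eq_zero_of_natDegree_lt (lt_of_le_of_lt h.LpD hlt)
  rw [coeff_Lp_mul hF (C_SS c) ((gg_SS D).pow hF i), coeff_Lp_pow hF (gg_SS D), Lp_C, gg_Lp] at h1
  have h2 : (Lp (star (QuadraticAlgebra.C c * gg D ^ i : Q2 (FF D)))).coeff
      (c.natDegree + i * (2 * ν * 3)) = 0 :=
    coeff_eq_zero_of_natDegree_lt (lt_of_le_of_lt h.cj.LpD hlt)
  have hs : star (QuadraticAlgebra.C c : Q2 (FF D)) = QuadraticAlgebra.C c := by
    ext1
    · simp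
    · simp
  rw [star_mul', star_pow, hs, coeff_Lp_mul hF (C_SS c) ((gg_SS D).cj.pow hF i),
    coeff_Lp_pow hF (gg_SS D).cj, Lp_C, gg_Lm] at h2
  have hl : c.coeff c.natDegree ≠ 0 := leadingCoeff_ne_zero.2 hc
  have h3 := (pow_eq_zero_iff (by omega)).1 ((mul_eq_zero.1 h1).resolve_left hl)
  have h4 := (pow_eq_zero_iff (by omega)).1 ((mul_eq_zero.1 h2).resolve_left hl)
  have h5 := (pow_eq_zero_iff (by norm_num)).1 h3
  have h6 := (pow_eq_zero_iff (by norm_num)).1 h4
  exact lead_ne D (by linear_combination (h5 + h6) / 2)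

end

/-! ### The substitution `t ↦ ω t` -/

/-- a primitive cube root of unity -/
noncomputable def om : ℂ := Complex.exp (2 * Real.pi * Complex.I / 3)

theorem om_prim : IsPrimitiveRoot om 3 := by
  have := Complex.isPrimitiveRoot_exp 3 (by norm_num)
  simpa [om] using this

theorem om_ne : om ≠ 0 := om_prim.ne_zero (by norm_num)

/-- `p (ω t)` -/
noncomputable def sb (p : ℂ[X]) : ℂ[X] := p.comp (C om * X)

theorem sb_mul (p q : ℂ[X]) : sb (p * q) = sb p * sb q := mul_comp _ _ _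

theorem sb_add (p q : ℂ[X]) : sb (p + q) = sb p + sb q := add_comp

theorem sb_pow (p : ℂ[X]) (n : ℕ) : sb (p ^ n) = sb p ^ n := pow_comp _ _ _

theorem sb_coeff (p : ℂ[X]) (n : ℕ) : (sb p).coeff n = p.coeff n * om ^ n := comp_C_mul_X_coeff

theorem sb_deg (p : ℂ[X]) : (sb p).natDegree = p.natDegree := by
  unfold sb
  rw [natDegree_comp, natDegree_C_mul_X _ om_ne, mul_one]

theorem sb_ne {p : ℂ[X]} (hp : p ≠ 0) : sb p ≠ 0 := by
  intro h
  apply hp
  ext n
  have h1 := congrArg (fun q : ℂ[X] => q.coeff n) h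
  simp only [sb_coeff, coeff_zero] at h1 ⊢
  exact (mul_eq_zero.1 h1).resolve_right (pow_ne_zero _ om_ne)

theorem sb_comp3 (p : ℂ[X]) : sb (p.comp (X ^ 3)) = p.comp (X ^ 3) := by
  unfold sb
  rw [comp_assoc]
  congr 1
  rw [X_pow_comp, mul_pow, ← C_pow, om_prim.pow_eq_one, C_1, one_mul]

theorem sb_zero : sb 0 = 0 := zero_comp

theorem of_sb {p : ℂ[X]} (h : sb p = p) : ∃ a : ℂ[X], p = a.comp (X ^ 3) := by
  refine ⟨contract 3 p, ?_⟩
  rw [← expand_eq_comp_X_pow]
  ext n
  rw [coeff_expand (by norm_num)]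
  split_ifs with h3
  · rw [coeff_contract (by norm_num), Nat.div_mul_cancel h3]
  · have h1 := congrArg (fun q : ℂ[X] => q.coeff n) h
    simp only [sb_coeff] at h1
    by_contra hne
    have h2 : om ^ n = 1 := by
      have : p.coeff n * (om ^ n - 1) = 0 := by linear_combination h1
      exact sub_eq_zero.1 ((mul_eq_zero.1 this).resolve_left hne)
    exact h3 (om_prim.dvd_of_pow_eq_one n h2)

/-- the decomposition of step (4) -/
theorem decomp {A B : ℂ[X]} (hne : A ≠ 0 ∨ B ≠ 0) (h : B * sb A = A * sb B) :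
    ∃ d a b : ℂ[X], d ≠ 0 ∧ A = d * a.comp (X ^ 3) ∧ B = d * b.comp (X ^ 3) := by
  set d := EuclideanDomain.gcd A B with hd
  have hd0 : d ≠ 0 := by
    intro h0
    have := EuclideanDomain.gcd_eq_zero_iff.1 h0
    rcases hne with h1 | h1
    · exact h1 this.1
    · exact h1 this.2
  obtain ⟨A1, hA⟩ := EuclideanDomain.gcd_dvd_left A B
  obtain ⟨B1, hB⟩ := EuclideanDomain.gcd_dvd_right A B
  rw [← hd] at hA hB
  have hcop : IsCoprime A1 B1 := by
    have h1 := EuclideanDomain.gcd_eq_gcd_ab A B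
    rw [← hd] at h1
    refine ⟨EuclideanDomain.gcdA A B, EuclideanDomain.gcdB A B, ?_⟩
    apply mul_left_cancel₀ hd0
    linear_combination (-EuclideanDomain.gcdA A B) * hA - EuclideanDomain.gcdB A B * hB - h1
  have h1 : B1 * sb A1 = A1 * sb B1 := by
    rw [hA, hB, sb_mul, sb_mul] at h
    apply mul_left_cancel₀ (mul_ne_zero hd0 (sb_ne hd0))
    linear_combination h
  have key : ∃ u : ℂ, sb A1 = C u * A1 ∧ sb B1 = C u * B1 := by
    by_cases hA0 : A1 = 0
    · rw [hA0] at hcop ⊢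
      have hu : IsUnit B1 := isCoprime_zero_left.1 hcop
      obtain ⟨c, -, hc⟩ := Polynomial.isUnit_iff.1 hu
      refine ⟨1, ?_, ?_⟩
      · rw [sb_zero, mul_zero]
      · rw [← hc, C_1, one_mul]
        exact C_comp
    · have h2 : A1 ∣ sb A1 := by
        apply hcop.dvd_of_dvd_mul_left
        rw [h1]
        exact dvd_mul_right _ _
      obtain ⟨u, hu⟩ := h2
      have hu0 : u ≠ 0 := by
        intro h0
        rw [h0, mul_zero] at hu
        exact sb_ne hA0 hu
      have h3 := congrArg natDegree hu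
      rw [sb_deg, natDegree_mul hA0 hu0] at h3
      have h4 : u.natDegree = 0 := by omega
      obtain ⟨c, hc⟩ := natDegree_eq_zero.1 h4
      refine ⟨c, ?_, ?_⟩
      · rw [hu, hc]; ring
      · rw [hu, ← hc] at h1
        apply mul_left_cancel₀ hA0
        linear_combination -h1
  obtain ⟨u, hu1, hu2⟩ := key
  have hu : u = 1 := by
    have c1 := congrArg (fun q : ℂ[X] => q.coeff 0) hu1
    have c2 := congrArg (fun q : ℂ[X] => q.coeff 0) hu2
    simp only [sb_coeff, pow_zero, mul_one, coeff_C_mul] at c1 c2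
    obtain ⟨x, y, hxy⟩ := hcop
    have c3 := congrArg (fun q : ℂ[X] => q.coeff 0) hxy
    simp only [coeff_add, mul_coeff_zero, coeff_one_zero] at c3
    by_cases h0 : A1.coeff 0 = 0
    · have h5 : B1.coeff 0 ≠ 0 := by
        intro h6
        rw [h0, h6] at c3
        simp at c3
      have : (u - 1) * B1.coeff 0 = 0 := by linear_combination -c2
      exact sub_eq_zero.1 ((mul_eq_zero.1 this).resolve_right h5)
    · have : (u - 1) * A1.coeff 0 = 0 := by linear_combination -c1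
      exact sub_eq_zero.1 ((mul_eq_zero.1 this).resolve_right h0)
  rw [hu, C_1, one_mul] at hu1 hu2
  obtain ⟨a, ha⟩ := of_sb hu1
  obtain ⟨b, hb⟩ := of_sb hu2
  exact ⟨d, a, b, hd0, by rw [← ha]; exact hA, by rw [← hb]; exact hB⟩

section

variable {ν : ℕ} (D : Pell ν)

/-- the automorphism `t ↦ ω t`, `y ↦ -y` -/
noncomputable def th : Q2 (FF D) →+* Q2 (FF D) where
  toFun z := ⟨sb z.re, -sb z.im⟩
  map_one' := by
    ext1
    · show sb 1 = 1
      exact one_comp
    · show -sb 0 = 0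
      rw [sb_zero, neg_zero]
  map_zero' := by
    ext1
    · show sb 0 = 0
      exact sb_zero
    · show -sb 0 = 0
      rw [sb_zero, neg_zero]
  map_add' := by
    intro z w
    ext1
    · show sb (z.re + w.re) = sb z.re + sb w.re
      exact sb_add _ _
    · show -sb (z.im + w.im) = -sb z.im + -sb w.im
      rw [sb_add]; ring
  map_mul' := by
    intro z w
    have hF : sb (FF D) = FF D := sb_comp3 _
    ext1
    · rw [QuadraticAlgebra.re_mul]
      show sb (z * w).re = sb z.re * sb w.re + FF D * (-sb z.im) * (-sb w.im)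
      rw [QuadraticAlgebra.re_mul, sb_add, sb_mul, sb_mul, sb_mul, hF]
      ring
    · rw [QuadraticAlgebra.im_mul]
      show -sb (z * w).im = sb z.re * (-sb w.im) + (-sb z.im) * sb w.re +
        0 * (-sb z.im) * (-sb w.im)
      rw [QuadraticAlgebra.im_mul, sb_add, sb_add, sb_mul, sb_mul, zero_mul, zero_mul, sb_zero]
      ring

theorem th_re (z : Q2 (FF D)) : (th D z).re = sb z.re := rfl

theorem th_im (z : Q2 (FF D)) : (th D z).im = -sb z.im := rfl

theorem th_gg : th D (gg D) = star (gg D) := by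
  ext1
  · rw [th_re, QuadraticAlgebra.re_star]
    show sb ((al D).comp (X ^ 3)) = (al D).comp (X ^ 3) + 0 * _
    rw [sb_comp3]; ring
  · rw [th_im, QuadraticAlgebra.im_star]
    show -sb ((bt D).comp (X ^ 3)) = -(bt D).comp (X ^ 3)
    rw [sb_comp3]

theorem th_SS {k : ℕ} {z : Q2 (FF D)} (h : SS k z) : SS k (th D z) := by
  constructor
  · rw [th_re, sb_deg]; exact h.1
  · rw [th_im, mul_neg, natDegree_neg]
    by_cases h0 : z.im = 0
    · rw [h0, sb_zero]; simp
    · rw [natDegree_X6 (sb_ne h0), sb_deg, ← natDegree_X6 h0]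
      exact h.2

theorem norm_eq (z : Q2 (FF D)) : z * star z = QuadraticAlgebra.C (z.re ^ 2 - FF D * z.im ^ 2) := by
  ext1
  · rw [QuadraticAlgebra.re_mul, QuadraticAlgebra.re_star, QuadraticAlgebra.im_star]
    show _ = z.re ^ 2 - FF D * z.im ^ 2
    ring
  · rw [QuadraticAlgebra.im_mul, QuadraticAlgebra.re_star, QuadraticAlgebra.im_star]
    show _ = (0 : ℂ[X])
    ring

theorem FF_natDeg : (FF D).natDegree = 12 := by
  unfold FF
  rw [natDegree_comp, natDegree_X_pow, natDegree_mul D.m1.ne_zero D.m2.ne_zero, D.d1, D.d2]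

/-- the key lemma in the quadratic ring -/
theorem core (hdom : ∀ z : Q2 (FF D), z ≠ 0 → z * star z ≠ 0) {z Φ : Q2 (FF D)} {i : ℕ}
    (hi : 0 < i) (hiν : i < ν) (h : z ^ ν * gg D ^ i = Φ) (hΦ : SS (2 * ν) Φ) : z = 0 := by
  by_contra hz
  have hF := FF_deg D
  have hν := D.hν
  have hgs := gg_star D
  have h1 : z ^ ν = Φ * star (gg D) ^ i := by
    rw [← h, mul_assoc, ← mul_pow, hgs, one_pow, mul_one]
  have hzS : SS (2 + 6 * i) z := by
    apply SS.root hF (n := ν) (by omega)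
    rw [h1]
    have := hΦ.mul hF ((gg_SS D).cj.pow hF i)
    refine this.mono (le_of_eq ?_)
    ring
  -- step (3)
  have h2 : (z * th D z) ^ ν = Φ * th D Φ := by
    have h3 : th D z ^ ν * star (gg D) ^ i = th D Φ := by
      rw [← h, map_mul, map_pow, map_pow, th_gg]
    rw [← h3, ← h, mul_pow]
    have h4 : gg D ^ i * star (gg D) ^ i = 1 := by rw [← mul_pow, hgs, one_pow]
    linear_combination (-(z ^ ν * th D z ^ ν)) * h4
  have h3 : SS 4 (z * th D z) := by
    apply SS.root hF (n := ν) (by omega)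
    rw [h2]
    refine (hΦ.mul hF (th_SS D hΦ)).mono (le_of_eq ?_)
    ring
  have h4 : (z * th D z).im = 0 := by
    by_contra h0
    have := h3.2
    rw [natDegree_X6 h0] at this
    omega
  rw [QuadraticAlgebra.im_mul, th_re, th_im] at h4
  have h5 : z.im * sb z.re = z.re * sb z.im := by linear_combination h4
  have hne : z.re ≠ 0 ∨ z.im ≠ 0 := by
    by_contra hcon
    push Not at hcon
    exact hz (QuadraticAlgebra.ext hcon.1 hcon.2)
  obtain ⟨d, a, b, hd, hA, hB⟩ := decomp hne h5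
  -- the norm
  set N : ℂ[X] := z.re ^ 2 - FF D * z.im ^ 2 with hN
  have hN0 : N ≠ 0 := by
    intro h0
    apply hdom z hz
    rw [norm_eq, ← hN, h0, QuadraticAlgebra.C_zero]
  have hNν : N ^ ν = Φ.re ^ 2 - FF D * Φ.im ^ 2 := by
    have e1 : (z * star z) ^ ν = Φ * star Φ := by
      have h3 : star z ^ ν * star (gg D) ^ i = star Φ := by
        rw [← h, star_mul', star_pow, star_pow]
      rw [← h3, ← h, mul_pow]
      have h4 : gg D ^ i * star (gg D) ^ i = 1 := by rw [← mul_pow, hgs, one_pow]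
      linear_combination (-(z ^ ν * star z ^ ν)) * h4
    rw [norm_eq, norm_eq, ← hN, ← QuadraticAlgebra.C_pow] at e1
    exact QuadraticAlgebra.C_injective e1
  have hNdeg : N.natDegree ≤ 4 := by
    have h6 : (N ^ ν).natDegree ≤ 4 * ν := by
      rw [hNν]
      refine (natDegree_sub_le _ _).trans (max_le ?_ ?_)
      · rw [sq]
        refine (natDegree_mul_le_of_le hΦ.1 hΦ.1).trans (by omega)
      · by_cases h0 : Φ.im = 0
        · rw [h0]; simp
        · have h7 := hΦ.2
          rw [natDegree_X6 h0] at h7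
          rw [sq]
          refine (natDegree_mul_le_of_le (FF_natDeg D).le
            (natDegree_mul_le_of_le le_rfl le_rfl)).trans ?_
          omega
    rw [natDegree_pow] at h6
    by_contra hlt
    push Not at hlt
    have : ν * 5 ≤ ν * N.natDegree := Nat.mul_le_mul_left ν hlt
    omega
  set n : ℂ[X] := a ^ 2 - D.f1 * D.f2 * b ^ 2 with hn
  have hNn : N = d ^ 2 * n.comp (X ^ 3) := by
    rw [hN, hn, hA, hB, FF]
    simp only [sub_comp, mul_comp, pow_comp]
    ring
  have hn0 : n ≠ 0 := by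
    intro h0
    rw [h0] at hNn
    simp at hNn
    exact hN0 hNn
  have hnc0 : n.comp (X ^ 3) ≠ 0 := by
    intro h0
    rw [h0, mul_zero] at hNn
    exact hN0 hNn
  have hdeg : 2 * d.natDegree + 3 * n.natDegree = N.natDegree := by
    rw [hNn, natDegree_mul (pow_ne_zero _ hd) hnc0, natDegree_pow, natDegree_comp,
      natDegree_X_pow]
    ring
  rcases Nat.lt_or_ge n.natDegree 1 with hn1 | hn1
  · -- `n` is constant
    obtain ⟨c, hc⟩ := natDegree_eq_zero.1 (show n.natDegree = 0 by omega)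
    have hc0 : c ≠ 0 := by
      intro h0
      rw [h0, C_0] at hc
      exact hn0 hc.symm
    by_cases hb : b = 0
    · have hBz : z.im = 0 := by rw [hB, hb]; simp
      have hAz : z.re ≠ 0 := hne.resolve_right (by rw [hBz]; simp)
      have hzC : z = QuadraticAlgebra.C z.re := by
        ext1
        · rfl
        · rw [hBz]; rfl
      have h6 : SS (2 * ν) (QuadraticAlgebra.C (z.re ^ ν) * gg D ^ i : Q2 (FF D)) := by
        rw [QuadraticAlgebra.C_pow, ← hzC, h]
        exact hΦ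
      have h7 := full D (pow_ne_zero ν hAz) hi h6
      have h8 : 1 * (2 * ν * 3) ≤ i * (2 * ν * 3) := Nat.mul_le_mul_right _ hi
      omega
    · have h6 := D.min a b c hc0 (by rw [← hn, ← hc]) hb
      have ha0 : a ≠ 0 := by
        intro h0
        rw [h0, natDegree_zero] at h6
        omega
      have hac0 : a.comp (X ^ 3) ≠ 0 := by
        rw [← expand_eq_comp_X_pow]
        exact (expand_ne_zero (by norm_num)).2 ha0
      have h7 := hzS.1
      rw [hA, natDegree_mul hd hac0, natDegree_comp, natDegree_X_pow] at h7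
      omega
  · -- `n` has degree one: impossible
    have hd0 : d.natDegree = 0 := by omega
    have hn1' : n.natDegree = 1 := by omega
    have hzS' : SS (6 * i) z := by
      constructor
      · have h7 := hzS.1
        rw [hA] at h7 ⊢
        by_cases ha0 : a = 0
        · rw [ha0]; simp
        have hac0 : a.comp (X ^ 3) ≠ 0 := by
          rw [← expand_eq_comp_X_pow]
          exact (expand_ne_zero (by norm_num)).2 ha0
        rw [natDegree_mul hd hac0, natDegree_comp, natDegree_X_pow] at h7 ⊢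
        omega
      · have h7 := hzS.2
        rw [hB] at h7 ⊢
        by_cases hb0 : b = 0
        · rw [hb0]; simp
        have hbc0 : b.comp (X ^ 3) ≠ 0 := by
          rw [← expand_eq_comp_X_pow]
          exact (expand_ne_zero (by norm_num)).2 hb0
        rw [natDegree_X6 (mul_ne_zero hd hbc0), natDegree_mul hd hbc0, natDegree_comp,
          natDegree_X_pow] at h7 ⊢
        omega
    have h8 : QuadraticAlgebra.C (N ^ ν) * gg D ^ i = Φ * star z ^ ν := by
      rw [QuadraticAlgebra.C_pow, hN, ← norm_eq, mul_pow, ← h]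
      ring
    have h9 : SS (2 * ν + ν * (6 * i)) (QuadraticAlgebra.C (N ^ ν) * gg D ^ i : Q2 (FF D)) := by
      rw [h8]
      exact hΦ.mul hF (hzS'.cj.pow hF ν)
    have h10 := full D (pow_ne_zero ν hN0) hi h9
    rw [natDegree_pow, ← hdeg, hd0, hn1'] at h10
    have e : i * (2 * ν * 3) = ν * (6 * i) := by ring
    rw [e] at h10
    omega

end

/-! ### Back to `Ω` -/

theorem aeval_tau' (P : ℂ[X]) : aeval tau P = algebraMap ℂ[X] Om P := by
  rw [aeval_tau, ← IsScalarTower.algebraMap_apply]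

section

variable {ν : ℕ} {D : Pell ν} (T : Tower D)

theorem y_sq : T.y ^ 2 = aeval tau (FF D) := (st_BAS ν D T).2.1

theorem G_sq : T.G ^ 2 = aeval tau ((al D).comp (X ^ 3)) + aeval tau ((bt D).comp (X ^ 3)) * T.y := by
  rw [(st_BAS ν D T).2.2.1]
  have e : ∀ p : ℂ[X], aeval tau (p.comp (X ^ 3)) = aeval (tau ^ 3) p := by
    intro p
    rw [aeval_comp]; simp
  rw [e, e]
  rfl

theorem ind2 {a b : RatFunc ℂ}
    (h : algebraMap (RatFunc ℂ) Om a + algebraMap (RatFunc ℂ) Om b * T.y = 0) :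
    a = 0 ∧ b = 0 := by
  have hb : b = 0 := by
    by_contra hb
    have hb' : algebraMap (RatFunc ℂ) Om b ≠ 0 := (_root_.map_ne_zero _).2 hb
    apply rr_notMem T (s := Finset.univ) Finset.univ_nonempty (-a / b)
    show T.y = _
    rw [map_div₀, map_neg]
    field_simp
    linear_combination h
  rw [hb, map_zero, zero_mul, add_zero] at h
  exact ⟨(map_eq_zero _).1 h, hb⟩

/-- the embedding of the quadratic ring -/
noncomputable def io : Q2 (FF D) →+* Om where
  toFun z := aeval tau z.re + aeval tau z.im * T.y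
  map_one' := by
    show aeval tau (1 : ℂ[X]) + aeval tau (0 : ℂ[X]) * T.y = 1
    rw [map_one, map_zero, zero_mul, add_zero]
  map_zero' := by
    show aeval tau (0 : ℂ[X]) + aeval tau (0 : ℂ[X]) * T.y = 0
    rw [map_zero, zero_mul, add_zero]
  map_add' := by
    intro z w
    rw [QuadraticAlgebra.re_add, QuadraticAlgebra.im_add, map_add, map_add]
    ring
  map_mul' := by
    intro z w
    rw [QuadraticAlgebra.re_mul, QuadraticAlgebra.im_mul]
    simp only [map_add, map_mul, map_zero, zero_mul, add_zero]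
    linear_combination (-(aeval tau z.im * aeval tau w.im)) * y_sq T

theorem io_apply (z : Q2 (FF D)) : io T z = aeval tau z.re + aeval tau z.im * T.y := rfl

theorem io_inj {z : Q2 (FF D)} (h : io T z = 0) : z = 0 := by
  rw [io_apply, aeval_tau, aeval_tau] at h
  obtain ⟨h1, h2⟩ := ind2 T h
  ext1
  · exact (map_eq_zero_iff _ (RatFunc.algebraMap_injective ℂ)).1 h1
  · exact (map_eq_zero_iff _ (RatFunc.algebraMap_injective ℂ)).1 h2

theorem io_gg : io T (gg D) = T.G ^ 2 := by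
  rw [G_sq]; rfl

include T in
theorem dom_norm (z : Q2 (FF D)) (hz : z ≠ 0) : z * star z ≠ 0 := by
  intro h
  have h1 : io T z * io T (star z) = 0 := by rw [← map_mul, h, map_zero]
  rcases mul_eq_zero.1 h1 with h2 | h2
  · exact hz (io_inj T h2)
  · have h3 := io_inj T h2
    exact hz (star_eq_zero.1 h3)

theorem y_int : IsIntegral ℂ[X] T.y := by
  refine IsIntegral.of_pow (n := 2) (by norm_num) ?_
  rw [y_sq, aeval_tau']
  exact isIntegral_algebraMap

theorem io_int (z : Q2 (FF D)) : IsIntegral ℂ[X] (io T z) := by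
  rw [io_apply, aeval_tau', aeval_tau']
  exact isIntegral_algebraMap.add (isIntegral_algebraMap.mul (y_int T))

theorem poly_of_int {c : RatFunc ℂ} (h : IsIntegral ℂ[X] (algebraMap (RatFunc ℂ) Om c)) :
    ∃ Q : ℂ[X], c = algebraMap ℂ[X] (RatFunc ℂ) Q := by
  have h1 : IsIntegral ℂ[X] c :=
    (isIntegral_algebraMap_iff (algebraMap (RatFunc ℂ) Om).injective).1 h
  obtain ⟨Q, hQ⟩ := IsIntegrallyClosed.isIntegral_iff.1 h1
  exact ⟨Q, hQ.symm⟩

include T in
theorem FF_sqfree : Squarefree (FF D) := by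
  have h1 := y_sq T
  have h2 : T.y ^ 2 = aeval tau (∏ i ∈ Finset.univ, (X - C (D.lam i)) : ℂ[X]) :=
    rr_sq T Finset.univ
  have h3 : FF D - ∏ i ∈ Finset.univ, (X - C (D.lam i)) = 0 := by
    apply aeval_tau_inj
    rw [map_sub, ← h1, ← h2, sub_self]
  rw [sub_eq_zero.1 h3]
  exact prod_sq_free

include T in
theorem poly_b {b : RatFunc ℂ} {R : ℂ[X]}
    (h : b ^ 2 * algebraMap ℂ[X] (RatFunc ℂ) (FF D) = algebraMap ℂ[X] (RatFunc ℂ) R) :
    ∃ Q : ℂ[X], b = algebraMap ℂ[X] (RatFunc ℂ) Q := by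
  have hF0 : FF D ≠ 0 := (FF_sqfree T).ne_zero
  have h1 : (b * algebraMap ℂ[X] (RatFunc ℂ) (FF D)) ^ 2 =
      algebraMap ℂ[X] (RatFunc ℂ) (R * FF D) := by
    rw [map_mul, ← h]; ring
  obtain ⟨M, hM⟩ := poly_of_sq h1
  have h2 : M ^ 2 = R * FF D := by
    apply RatFunc.algebraMap_injective ℂ
    rw [map_pow, ← hM, h1]
  have h3 : FF D ∣ M := by
    rw [← (FF_sqfree T).dvd_pow_iff_dvd (n := 2) (by norm_num), h2]
    exact dvd_mul_left _ _
  obtain ⟨Q, hQ⟩ := h3
  refine ⟨Q, ?_⟩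
  have h4 : algebraMap ℂ[X] (RatFunc ℂ) (FF D) ≠ 0 := by
    intro h0
    exact hF0 ((map_eq_zero_iff _ (RatFunc.algebraMap_injective ℂ)).1 h0)
  apply mul_right_cancel₀ h4
  rw [hM, hQ, map_mul]; ring

/-- an integral element of `ℂ(τ) + ℂ(τ) y` has polynomial coefficients -/
theorem poly_ab {a b : RatFunc ℂ} (h : IsIntegral ℂ[X]
    (algebraMap (RatFunc ℂ) Om a + algebraMap (RatFunc ℂ) Om b * T.y)) :
    ∃ A B : ℂ[X], a = algebraMap ℂ[X] (RatFunc ℂ) A ∧ b = algebraMap ℂ[X] (RatFunc ℂ) B := by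
  have hne : (Finset.univ : Finset (Fin 12)) ≠ ∅ := Finset.univ_nonempty.ne_empty
  obtain ⟨σ, hσ⟩ := exists_sig T hne
  have hσy : σ T.y = -T.y := by
    rcases hσ with ⟨-, h2⟩ | ⟨h1, -⟩
    · exfalso
      have e : T.rr ∅ = 1 := Finset.prod_empty
      rw [e, map_one] at h2
      have : (2 : Om) = 0 := by linear_combination h2
      exact two_ne_zero this
    · exact h1
  have h2 : IsIntegral ℂ[X] (algebraMap (RatFunc ℂ) Om a - algebraMap (RatFunc ℂ) Om b * T.y) := by
    have h3 := h.map (σ.toAlgHom.restrictScalars ℂ[X])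
    have h4 : (σ.toAlgHom.restrictScalars ℂ[X])
        (algebraMap (RatFunc ℂ) Om a + algebraMap (RatFunc ℂ) Om b * T.y) =
        algebraMap (RatFunc ℂ) Om a - algebraMap (RatFunc ℂ) Om b * T.y := by
      show σ (algebraMap (RatFunc ℂ) Om a + algebraMap (RatFunc ℂ) Om b * T.y) = _
      rw [map_add, map_mul, AlgEquiv.commutes, AlgEquiv.commutes, hσy]
      ring
    rwa [h4] at h3
  have hhalf : ∀ x : Om, IsIntegral ℂ[X] ((2 : Om) * x) → IsIntegral ℂ[X] x := by
    intro x hx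
    have h5 : x = algebraMap ℂ[X] Om (C (1 / 2)) * (2 * x) := by
      have h6 : algebraMap ℂ[X] Om (C (1 / 2)) * 2 = 1 := by
        have : (2 : Om) = algebraMap ℂ[X] Om (C 2) := by
          rw [map_ofNat, map_ofNat]
        rw [this, ← map_mul, ← C_mul]
        norm_num
      rw [← mul_assoc, h6, one_mul]
    rw [h5]
    exact isIntegral_algebraMap.mul hx
  have ha : IsIntegral ℂ[X] (algebraMap (RatFunc ℂ) Om a) := by
    apply hhalf
    have := h.add h2
    have e : algebraMap (RatFunc ℂ) Om a + algebraMap (RatFunc ℂ) Om b * T.y +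
        (algebraMap (RatFunc ℂ) Om a - algebraMap (RatFunc ℂ) Om b * T.y) =
        2 * algebraMap (RatFunc ℂ) Om a := by ring
    rwa [e] at this
  have hb : IsIntegral ℂ[X] (algebraMap (RatFunc ℂ) Om b * T.y) := by
    have := h.sub ha
    rwa [add_sub_cancel_left] at this
  have hb2 : IsIntegral ℂ[X] (algebraMap (RatFunc ℂ) Om
      (b ^ 2 * algebraMap ℂ[X] (RatFunc ℂ) (FF D))) := by
    have h5 := hb.pow 2
    have e : (algebraMap (RatFunc ℂ) Om b * T.y) ^ 2 = algebraMap (RatFunc ℂ) Om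
      (b ^ 2 * algebraMap ℂ[X] (RatFunc ℂ) (FF D)) := by
      rw [mul_pow, y_sq, aeval_tau, map_mul, map_pow]
    rwa [e] at h5
  obtain ⟨A, hA⟩ := poly_of_int ha
  obtain ⟨R, hR⟩ := poly_of_int hb2
  obtain ⟨B, hB⟩ := poly_b T hR
  exact ⟨A, B, hA, hB⟩

end

theorem st_EX : ST_EX := by
  intro ν D T a b P Q i hi hiν h hP hQ
  have hν := D.hν
  set F0 := algebraMap (RatFunc ℂ) Om a + algebraMap (RatFunc ℂ) Om b * T.y with hF0
  set Φ : Q2 (FF D) := ⟨P, Q⟩ with hΦ
  have hio : io T Φ = aeval tau P + aeval tau Q * T.y := rfl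
  have hgs : io T (gg D) * io T (star (gg D)) = 1 := by rw [← map_mul, gg_star, map_one]
  have hG : T.G ^ (2 * i) = io T (gg D) ^ i := by rw [io_gg, ← pow_mul]
  have h1 : F0 ^ ν = io T (Φ * star (gg D) ^ i) := by
    rw [map_mul, map_pow, hio, ← h, hG, mul_assoc, ← mul_pow, hgs, one_pow, mul_one]
  have hint : IsIntegral ℂ[X] F0 := by
    refine IsIntegral.of_pow (n := ν) (by omega) ?_
    rw [h1]
    exact io_int T _
  obtain ⟨A, B, hA, hB⟩ := poly_ab T hint
  set z : Q2 (FF D) := ⟨A, B⟩ with hz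
  have hzF : io T z = F0 := by
    rw [io_apply, hF0, hA, hB, aeval_tau, aeval_tau]
  have h2 : z ^ ν * gg D ^ i = Φ := by
    have h3 : io T (z ^ ν * gg D ^ i - Φ) = 0 := by
      rw [map_sub, map_mul, map_pow, map_pow, hzF, ← hG, h, hio, sub_self]
    exact sub_eq_zero.1 (io_inj T h3)
  have hS : SS (2 * ν) Φ := by
    constructor
    · exact hP
    · show (X ^ 6 * Q).natDegree ≤ 2 * ν
      by_cases h0 : Q = 0
      · rw [h0]; simp
      · rw [natDegree_X6 h0]
        have := hQ.resolve_left h0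
        omega
  have h0 := core D (dom_norm T) hi hiν h2 hS
  have hA0 : A = 0 := congrArg QuadraticAlgebra.re h0
  have hB0 : B = 0 := congrArg QuadraticAlgebra.im h0
  rw [hA, hB, hA0, hB0, map_zero]
  exact ⟨rfl, rfl⟩

end Pool.Agent.Helper55.RG
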