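import Mathlib

/-!
Independent sets in finite groups for right translations by a finite set.
-/

namespace Pool.Agent.Helper55.RG

open Finset

theorem indep {Γ : Type*} [Group Γ] [Fintype Γ] [DecidableEq Γ] (Q : Finset Γ) (hQ : 1 ∉ Q) :
    ∃ E : Finset Γ, (∀ e ∈ E, ∀ q ∈ Q, e * q ∉ E) ∧
      Fintype.card Γ ≤ (2 * Q.card + 1) * E.card := by
  classical
  set F : Finset (Finset Γ) := Finset.univ.filter (fun E => ∀ e ∈ E, ∀ q ∈ Q, e * q ∉ E) with hF
  have hne : F.Nonempty := ⟨∅, by simp [hF]⟩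
  obtain ⟨E, hE, hmax⟩ := Finset.exists_max_image F Finset.card hne
  have hE' : ∀ e ∈ E, ∀ q ∈ Q, e * q ∉ E := by
    have := (Finset.mem_filter.mp hE).2
    exact this
  refine ⟨E, hE', ?_⟩
  have hcov : (Finset.univ : Finset Γ) ⊆
      E ∪ (E ×ˢ Q).image (fun p => p.1 * p.2) ∪ (E ×ˢ Q).image (fun p => p.1 * p.2⁻¹) := by
    intro x _
    by_contra hx
    rw [Finset.mem_union, Finset.mem_union, not_or, not_or] at hx
    obtain ⟨⟨hx1, hx2⟩, hx3⟩ := hx
    have h2 : ∀ e ∈ E, ∀ q ∈ Q, e * q ≠ x := by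
      intro e he q hq h
      exact hx2 (Finset.mem_image.mpr ⟨(e, q), Finset.mem_product.mpr ⟨he, hq⟩, h⟩)
    have h3 : ∀ q ∈ Q, x * q ∉ E := by
      intro q hq h
      exact hx3 (Finset.mem_image.mpr ⟨(x * q, q), Finset.mem_product.mpr ⟨h, hq⟩, by simp⟩)
    have hins : insert x E ∈ F := by
      rw [hF, Finset.mem_filter]
      refine ⟨Finset.mem_univ _, ?_⟩
      intro e he q hq
      rw [Finset.mem_insert, not_or]
      rcases Finset.mem_insert.mp he with h | h
      · subst h
        refine ⟨?_, h3 q hq⟩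
        intro h4
        apply hQ
        have : q = 1 := mul_eq_left.mp h4
        rw [← this]
        exact hq
      · exact ⟨h2 e h q hq, hE' e h q hq⟩
    have hcard := hmax _ hins
    rw [Finset.card_insert_of_notMem hx1] at hcard
    omega
  have h1 : Fintype.card Γ ≤ E.card + (E.card * Q.card) + (E.card * Q.card) := by
    calc Fintype.card Γ = (Finset.univ : Finset Γ).card := rfl
      _ ≤ _ := Finset.card_le_card hcov
      _ ≤ (E ∪ (E ×ˢ Q).image (fun p => p.1 * p.2)).card
          + ((E ×ˢ Q).image (fun p => p.1 * p.2⁻¹)).card := Finset.card_union_le _ _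
      _ ≤ (E.card + ((E ×ˢ Q).image (fun p => p.1 * p.2)).card)
          + ((E ×ˢ Q).image (fun p => p.1 * p.2⁻¹)).card :=
          Nat.add_le_add_right (Finset.card_union_le _ _) _
      _ ≤ (E.card + (E ×ˢ Q).card) + (E ×ˢ Q).card :=
          Nat.add_le_add (Nat.add_le_add_left Finset.card_image_le _) Finset.card_image_le
      _ = E.card + (E.card * Q.card) + (E.card * Q.card) := by rw [Finset.card_product]
  calc Fintype.card Γ ≤ E.card + (E.card * Q.card) + (E.card * Q.card) := h1
    _ = (2 * Q.card + 1) * E.card := by ring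

end Pool.Agent.Helper55.RG
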