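import Mathlib

/-!
Words in a group: a coset identity with pairwise different beginnings makes every element of
the normal subgroup a product of conjugates of itself by elements outside the subgroup.
-/

namespace Pool.Agent.Helper55.RG

variable {G : Type*} [Group G] {k : ℕ}

/-- The value of a letter at a tuple. -/
def lv (g : Fin k → G) (l : Fin k × Bool) : G := cond l.2 (g l.1) (g l.1)⁻¹

lemma lift_mk_eq (g : Fin k → G) (L : List (Fin k × Bool)) :
    FreeGroup.lift g (FreeGroup.mk L) = (L.map (lv g)).prod := by
  rw [FreeGroup.lift_mk]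
  rfl

lemma lift_eq (g : Fin k → G) (u : FreeGroup (Fin k)) :
    FreeGroup.lift g u = (u.toWord.map (lv g)).prod := by
  rw [← lift_mk_eq, FreeGroup.mk_toWord]

lemma expand (v v' δ : Fin k × Bool → G) (hδ : ∀ l, v' l = δ l * v l) (A : Subgroup G) :
    ∀ (L : List (Fin k × Bool)) (P : G),
      (∀ L1 l L2, L = L1 ++ l :: L2 →
        (P * (L1.map v).prod) * δ l * (P * (L1.map v).prod)⁻¹ ∈ A) →
      P * (L.map v').prod * ((L.map v).prod)⁻¹ * P⁻¹ ∈ A := by
  intro L
  induction L with
  | nil =>
    intro P _
    simp
  | cons l L' ih =>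
    intro P h
    have h0 : P * δ l * P⁻¹ ∈ A := by
      have := h [] l L' rfl
      simpa using this
    have h1 : (P * v l) * (L'.map v').prod * ((L'.map v).prod)⁻¹ * (P * v l)⁻¹ ∈ A := by
      refine ih (P * v l) ?_
      intro L1 l' L2 hL
      have := h (l :: L1) l' L2 (by rw [hL]; rfl)
      rw [List.map_cons, List.prod_cons, ← mul_assoc] at this
      exact this
    have h2 := A.mul_mem h0 h1
    have e : P * δ l * P⁻¹ * (P * v l * (L'.map v').prod * ((L'.map v).prod)⁻¹ * (P * v l)⁻¹)
        = P * ((l :: L').map v').prod * (((l :: L').map v).prod)⁻¹ * P⁻¹ := by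
      rw [List.map_cons, List.map_cons, List.prod_cons, List.prod_cons, hδ l]
      group
    rw [← e]
    exact h2

/-- The perturbed tuple. -/
def pert (g : Fin k → G) (l0 : Fin k × Bool) (z : G) : Fin k → G :=
  Function.update g l0.1 (cond l0.2 (z * g l0.1) (g l0.1 * z⁻¹))

/-- The factors by which the letters change. -/
def pdelta (g : Fin k → G) (l0 : Fin k × Bool) (z : G) (l : Fin k × Bool) : G :=
  if l = l0 then z else if l = (l0.1, !l0.2) then (lv g l0)⁻¹ * z⁻¹ * lv g l0 else 1

lemma lv_pert (g : Fin k → G) (l0 : Fin k × Bool) (z : G) (l : Fin k × Bool) :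
    lv (pert g l0 z) l = pdelta g l0 z l * lv g l := by
  obtain ⟨i0, b0⟩ := l0
  obtain ⟨i, b⟩ := l
  unfold lv pert pdelta lv
  by_cases hi : i = i0
  · subst hi
    cases b <;> cases b0 <;> simp [mul_assoc]
  · simp [hi, Function.update_of_ne]

lemma pert_mem (K : Subgroup G) [K.Normal] (g : Fin k → G) (l0 : Fin k × Bool) (z : G)
    (hz : z ∈ K) (i : Fin k) : pert g l0 z i * (g i)⁻¹ ∈ K := by
  obtain ⟨i0, b0⟩ := l0
  unfold pert
  by_cases hi : i = i0
  · subst hi
    cases b0
    · simp only [cond_false, Function.update_self]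
      exact Subgroup.Normal.conj_mem inferInstance _ (K.inv_mem hz) _
    · simpa using hz
  · simp [Function.update_of_ne hi]

/-- The set of conjugates of `z` by the values of the short nontrivial words. -/
def conjSet (g : Fin k → G) (n : ℕ) (z : G) : Set G :=
  {x | ∃ v : FreeGroup (Fin k), v ≠ 1 ∧ v.norm ≤ n ∧
    x = FreeGroup.lift g v * z * (FreeGroup.lift g v)⁻¹}

theorem key (K : Subgroup G) [K.Normal] (g : Fin k → G) (n : ℕ)
    (hgirth : ∀ v : FreeGroup (Fin k), v ≠ 1 → v.norm ≤ n → FreeGroup.lift g v ∉ K)
    (u : FreeGroup (Fin k)) (hu1 : u ≠ 1) (hun : u.norm ≤ n + 1)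
    (hu : ∀ g' : Fin k → G, (∀ i, g' i * (g i)⁻¹ ∈ K) → FreeGroup.lift g' u = 1)
    (z : G) (hz : z ∈ K) : z ∈ Subgroup.closure (conjSet g n z) := by
  have hug : FreeGroup.lift g u = 1 := hu g (fun i => by simp [K.one_mem])
  have hn : u.norm = n + 1 := by
    by_contra hne
    have h1 : u.norm ≤ n := by omega
    exact hgirth u hu1 h1 (by rw [hug]; exact K.one_mem)
  obtain ⟨l0, L', hL⟩ : ∃ l0 L', u.toWord = l0 :: L' := by
    cases h : u.toWord with
    | nil => exact absurd (FreeGroup.toWord_eq_nil_iff.mp h) hu1
    | cons a l => exact ⟨a, l, rfl⟩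
  have hlen : L'.length = n := by
    have : u.toWord.length = n + 1 := hn
    rw [hL, List.length_cons] at this
    omega
  have hmk : FreeGroup.mk (l0 :: L') = u := by rw [← hL, FreeGroup.mk_toWord]
  -- nontriviality of short beginnings
  have hpre : ∀ L1 L2 : List (Fin k × Bool), L1 ≠ [] → L1 ++ L2 = l0 :: L' →
      FreeGroup.mk L1 ≠ 1 := by
    intro L1 L2 h1 h2 h3
    have h4 : FreeGroup.mk L1 * FreeGroup.mk L2 = u := by
      rw [FreeGroup.mul_mk, h2, hmk]
    rw [h3, one_mul] at h4
    have h5 : u.norm ≤ L2.length := by rw [← h4]; exact FreeGroup.norm_mk_le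
    have h6 : (L1 ++ L2).length = n + 1 := by rw [h2, List.length_cons, hlen]
    rw [List.length_append] at h6
    have h7 : 0 < L1.length := List.length_pos_iff.mpr h1
    omega
  set A := Subgroup.closure (conjSet g n z) with hA
  have hmem : ∀ L1 : List (Fin k × Bool), FreeGroup.mk L1 ≠ 1 → L1.length ≤ n →
      (L1.map (lv g)).prod * z * ((L1.map (lv g)).prod)⁻¹ ∈ A := by
    intro L1 h1 h2
    apply Subgroup.subset_closure
    exact ⟨FreeGroup.mk L1, h1, le_trans FreeGroup.norm_mk_le h2, by rw [lift_mk_eq]⟩
  have hval : lv g l0 * (L'.map (lv g)).prod = 1 := by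
    rw [lift_eq, hL, List.map_cons, List.prod_cons] at hug
    exact hug
  have hval' : z * lv g l0 * (L'.map (lv (pert g l0 z))).prod = 1 := by
    have h1 := hu (pert g l0 z) (fun i => pert_mem K g l0 z hz i)
    rw [lift_eq, hL, List.map_cons, List.prod_cons, lv_pert] at h1
    have h2 : pdelta g l0 z l0 = z := by simp [pdelta]
    rw [h2] at h1
    exact h1
  have hexp := expand (lv g) (lv (pert g l0 z)) (pdelta g l0 z) (lv_pert g l0 z) A L' (lv g l0)
    (by
      intro L1 l L2 hdec
      have hlenL : L1.length + (L2.length + 1) = n := by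
        rw [← hlen, hdec, List.length_append, List.length_cons]
      have hP : lv g l0 * (L1.map (lv g)).prod = ((l0 :: L1).map (lv g)).prod := by
        rw [List.map_cons, List.prod_cons]
      by_cases h1 : l = l0
      · have h2 : pdelta g l0 z l = z := by simp [pdelta, h1]
        rw [h2, hP]
        refine hmem (l0 :: L1) (hpre (l0 :: L1) (l :: L2) (List.cons_ne_nil _ _) ?_) ?_
        · rw [hdec]; rfl
        · rw [List.length_cons]; omega
      · by_cases h2 : l = (l0.1, !l0.2)
        · have h3 : pdelta g l0 z l = (lv g l0)⁻¹ * z⁻¹ * lv g l0 := by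
            unfold pdelta
            rw [if_neg h1, if_pos h2]
          have h4 : (lv g l0)⁻¹ = lv g l := by
            rw [h2]
            unfold lv
            cases l0.2 <;> simp
          by_cases h5 : L2 = []
          · exfalso
            subst h5
            have h6 : FreeGroup.mk [l0] * FreeGroup.mk L1 * FreeGroup.mk [l] = u := by
              rw [FreeGroup.mul_mk, FreeGroup.mul_mk, ← hmk, hdec]
              rfl
            have h7 : FreeGroup.mk [l] = (FreeGroup.mk [l0])⁻¹ := by
              rw [FreeGroup.inv_mk, h2]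
              rfl
            have h8 : FreeGroup.mk L1 ≠ 1 := by
              intro h9
              apply hu1
              rw [← h6, h9, h7]
              group
            have h9 : (FreeGroup.mk L1).norm ≤ n := by
              refine le_trans FreeGroup.norm_mk_le ?_
              omega
            refine hgirth _ h8 h9 ?_
            have h10 : FreeGroup.lift g (FreeGroup.mk L1) = 1 := by
              rw [← h6, h7, map_mul, map_mul, map_inv] at hug
              have h11 : FreeGroup.lift g (FreeGroup.mk L1)
                  = (FreeGroup.lift g (FreeGroup.mk [l0]))⁻¹ *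
                    (FreeGroup.lift g (FreeGroup.mk [l0]) * FreeGroup.lift g (FreeGroup.mk L1) *
                      (FreeGroup.lift g (FreeGroup.mk [l0]))⁻¹) *
                    FreeGroup.lift g (FreeGroup.mk [l0]) := by group
              rw [h11, hug]
              group
            rw [h10]
            exact K.one_mem
          · have h6 : 0 < L2.length := List.length_pos_iff.mpr h5
            have h7 : lv g l0 * (L1.map (lv g)).prod * pdelta g l0 z l *
                (lv g l0 * (L1.map (lv g)).prod)⁻¹
                = ((((l0 :: L1) ++ [l]).map (lv g)).prod * z *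
                  ((((l0 :: L1) ++ [l]).map (lv g)).prod)⁻¹)⁻¹ := by
              rw [h3, List.map_append, List.prod_append, ← hP, List.map_cons, List.map_nil,
                List.prod_cons, List.prod_nil, mul_one, ← h4]
              group
            rw [h7]
            apply A.inv_mem
            refine hmem _ (hpre _ L2 (by simp) ?_) ?_
            · rw [hdec]; simp
            · simp only [List.cons_append, List.length_cons, List.length_append,
                List.length_nil]
              omega
        · have h3 : pdelta g l0 z l = 1 := by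
            unfold pdelta
            rw [if_neg h1, if_neg h2]
          rw [h3, mul_one, mul_inv_cancel]
          exact A.one_mem)
  have h1 : lv g l0 * (L'.map (lv (pert g l0 z))).prod * ((L'.map (lv g)).prod)⁻¹ * (lv g l0)⁻¹
      = z⁻¹ := by
    have h2 : ((L'.map (lv g)).prod)⁻¹ = lv g l0 := (eq_inv_of_mul_eq_one_left hval).symm
    rw [h2, mul_assoc (lv g l0 * _), mul_inv_cancel, mul_one]
    exact eq_inv_of_mul_eq_one_right (by rw [← mul_assoc]; exact hval')
  rw [h1] at hexp
  exact inv_inv z ▸ A.inv_mem hexp

end Pool.Agent.Helper55.RG
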